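import Pool.Agent.Helper1.BP.PreMain
import Pool.Agent.Helper21.BPA.PMain
import Pool.Agent.Helper72.BP.IfADefs

/-!
PROJECT BP (MP_1cfd37_ag), block A, module BP-A1.24 (helper1): block A, assembled from `pre_main` (first half) and `pMain` (second half, helper21).
-/

set_option autoImplicit false

namespace Pool.Agent.Helper1.BP

open MvPolynomial Pool.Agent.Helper21.BPA Pool.Agent.Helper72.BP

private theorem ev_real {σ : Type} (w : σ → ℝ) (f : MvPolynomial σ ℝ) :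
    aeval (fun x => (w x : ℂ)) f = ((aeval w f : ℝ) : ℂ) := by
  have h : (fun x => (w x : ℂ)) = (algebraMap ℝ ℂ) ∘ w := rfl
  rw [h, MvPolynomial.aeval_algebraMap_apply]
  rfl

/-- The output of block A from `Pre` and the number. -/
theorem aout_of_pre {p : ℕ} {κ τ : Type} [Fintype κ] [Fintype τ]
    (F : MvPolynomial (Var (Ix p κ) τ) ℝ) (J : Ideal (MvPolynomial (Var (Ix p κ) τ) ℝ))
    (σ : τ → MvPolynomial (Ix p κ) ℂ) (R : Pre F J σ)
    (hP : ∃ c : ℤ, Odd c ∧
      ∑ i ∈ Finset.range (R.L + 1), (-1 : ℤ) ^ i * ∑ j, (-1 : ℤ) ^ R.deg i j = 2 ^ p * c) :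
    Nonempty (AOut F J σ) := by
  classical
  have hn := R.n_lt
  -- evaluation at a real point of `F = 0`
  have key : ∀ w : Var (Ix p κ) τ → ℝ, aeval w F = 0 → ∀ g ∈ Ideal.span {F},
      aeval (fun x => (w x : ℂ)) g = 0 := by
    intro w hw g hg
    obtain ⟨q, hq⟩ := Ideal.mem_span_singleton'.1 hg
    rw [← hq, map_mul, ev_real w F, hw, Complex.ofReal_zero, mul_zero]
  have hMi : ∀ i, i ≤ R.n → (if i ≤ R.n then R.M i else 0) = R.M i := fun i hi => if_pos hi
  have hHi : ∀ i, i < R.L → (if i < R.L then R.H i else 0) = R.H i := fun i hi => if_pos hi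
  refine ⟨{
    n := R.n
    L := R.L
    n_pos := R.n_pos
    n_lt := R.n_lt
    rk := R.rk
    deg := R.deg
    M := fun i => if i ≤ R.n then R.M i else 0
    H := fun i => if i < R.L then R.H i else 0
    M_hom := ?_
    H_hom := ?_
    H_eq := ?_
    X1 := ?_
    X2s := ?_
    X2 := ?_
    X3 := ?_
    X3i := ?_
    P := hP }⟩
  · intro i a b c w _
    by_cases hi : i ≤ R.n
    · simp only [if_pos hi]
      exact wh_scale _ _ _ (R.M_wh i hi a b) c w
    · simp only [if_neg hi, Matrix.zero_apply, map_zero, zero_mul, mul_zero]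
  · intro i a b c y _
    by_cases hi : i < R.L
    · simp only [if_pos hi]
      exact wh_scaleC _ _ _ (R.H_wh i hi a b) c y
    · simp only [if_neg hi, Matrix.zero_apply, map_zero, zero_mul, mul_zero]
  · intro i hi a b
    have hi' : i < R.L := by omega
    simp only [if_pos hi', if_pos hi]
    exact R.H_eq i hi a b
  · intro w hw hd i hi
    have h1 : i ≤ R.n := by omega
    have h2 : i + 1 ≤ R.n := by omega
    simp only [if_pos h1, if_pos h2]
    obtain ⟨x, hx⟩ := hd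
    refine R.X1C (fun x => (w x : ℂ)) ?_ ⟨x, ?_⟩ i hi
    · rw [ev_real w F, hw, Complex.ofReal_zero]
    · rw [ev_real w]
      exact fun h => hx (Complex.ofReal_eq_zero.1 h)
  · intro w hw hf v
    obtain ⟨f, hfJ, hfw⟩ := hf
    obtain ⟨h, h0, -⟩ := R.M_htpy f hfJ
    simp only [if_pos (Nat.zero_le R.n)]
    have hfc : aeval (fun x => (w x : ℂ)) f ≠ 0 := by
      rw [ev_real w f]
      exact fun h => hfw (Complex.ofReal_eq_zero.1 h)
    have e : evM (fun x => (w x : ℂ)) (R.M 0) * evM (fun x => (w x : ℂ)) (h 0) =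
        (aeval (fun x => (w x : ℂ)) f) • (1 : Matrix (Fin (R.rk 0)) (Fin (R.rk 0)) ℂ) := by
      rw [evM, evM, ← Matrix.map_mul]
      ext1 a b
      have := key w hw _ (h0 a b)
      rw [Matrix.sub_apply, map_sub, sub_eq_zero] at this
      rw [Matrix.map_apply, ← this, Matrix.smul_apply, Matrix.smul_apply, Matrix.one_apply, Matrix.one_apply,
        smul_eq_mul, smul_eq_mul, map_mul]
      split_ifs <;> simp
    refine ⟨(evM (fun x => (w x : ℂ)) (h 0)).mulVec ((aeval (fun x => (w x : ℂ)) f)⁻¹ • v), ?_⟩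
    rw [Matrix.mulVec_mulVec, e, Matrix.smul_mulVec, Matrix.one_mulVec, smul_smul, mul_inv_cancel₀ hfc,
      one_smul]
  · intro w hw hf i hi v
    obtain ⟨f, hfJ, hfw⟩ := hf
    obtain ⟨h, -, hs⟩ := R.M_htpy f hfJ
    have h1 : i ≤ R.n := by omega
    have h2 : i + 1 ≤ R.n := by omega
    simp only [if_pos h1, if_pos h2]
    have hfc : aeval (fun x => (w x : ℂ)) f ≠ 0 := by
      rw [ev_real w f]
      exact fun h => hfw (Complex.ofReal_eq_zero.1 h)
    have e : evM (fun x => (w x : ℂ)) (R.M (i + 1)) * evM (fun x => (w x : ℂ)) (h (i + 1)) +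
        evM (fun x => (w x : ℂ)) (h i) * evM (fun x => (w x : ℂ)) (R.M i) =
        (aeval (fun x => (w x : ℂ)) f) • (1 : Matrix (Fin (R.rk (i + 1))) (Fin (R.rk (i + 1))) ℂ) := by
      rw [evM, evM, evM, evM, ← Matrix.map_mul, ← Matrix.map_mul]
      ext1 a b
      have := key w hw _ (hs i hi a b)
      rw [Matrix.sub_apply, map_sub, sub_eq_zero] at this
      rw [Matrix.add_apply, Matrix.map_apply, Matrix.map_apply, ← map_add, ← Matrix.add_apply, ← this,
        Matrix.smul_apply, Matrix.smul_apply, Matrix.one_apply, Matrix.one_apply,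
        smul_eq_mul, smul_eq_mul, map_mul]
      split_ifs <;> simp
    constructor
    · intro hv
      refine ⟨(aeval (fun x => (w x : ℂ)) f)⁻¹ • (evM (fun x => (w x : ℂ)) (h (i + 1))).mulVec v, ?_⟩
      have e2 := congrArg (fun A => Matrix.mulVec A v) e
      simp only [Matrix.add_mulVec, ← Matrix.mulVec_mulVec, hv, Matrix.mulVec_zero, add_zero,
        Matrix.smul_mulVec, Matrix.one_mulVec] at e2
      rw [Matrix.mulVec_smul, e2, smul_smul, inv_mul_cancel₀ hfc, one_smul]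
    · rintro ⟨u, rfl⟩
      have e3 : evM (fun x => (w x : ℂ)) (R.M i) * evM (fun x => (w x : ℂ)) (R.M (i + 1)) = 0 := by
        rw [evM, evM, ← Matrix.map_mul]
        ext1 a b
        rw [Matrix.map_apply, key w hw _ (R.M_comp i hi a b), Matrix.zero_apply]
      rw [Matrix.mulVec_mulVec, e3, Matrix.zero_mulVec]
  · intro y hy i hi hi2
    have h1 : i < R.L := by omega
    simp only [if_pos h1, if_pos hi2]
    exact R.X3 y hy i hi hi2
  · intro y hy i hi u hu
    have h1 : i < R.L := by omega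
    simp only [if_pos h1] at hu
    exact R.X3i y hy i hi u hu

/-- BLOCK A. -/
theorem aMain {p : ℕ} (_hp : 1 ≤ p) {κ τ : Type} [Fintype κ] [DecidableEq κ] [Fintype τ] [DecidableEq τ]
    (F : MvPolynomial (Var (Ix p κ) τ) ℝ) (hF : IsWeightedHomogeneous (wt : Var (Ix p κ) τ → ℕ) F 4)
    (J : Ideal (MvPolynomial (Var (Ix p κ) τ) ℝ)) (hFJ : F ∈ J)
    (hJ : ∀ f ∈ J, ∀ d, weightedHomogeneousComponent (wt : Var (Ix p κ) τ → ℕ) d f ∈ J)
    (σ : τ → MvPolynomial (Ix p κ) ℂ) (hσ : ∀ s, (σ s).IsHomogeneous 2)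
    (hσF : aeval (Sum.elim X σ : Var (Ix p κ) τ → MvPolynomial (Ix p κ) ℂ) F = 0)
    (hσd : ∀ y : Ix p κ → ℂ, y ≠ 0 →
      ∃ s, aeval (Sum.elim y (fun s => eval y (σ s)) : Var (Ix p κ) τ → ℂ) (pderiv (Sum.inr s) F) ≠ 0)
    (σ' : τ → MvPolynomial (Fin (p + 1)) ℝ) (hσ' : ∀ s, (σ' s).IsHomogeneous 2)
    (hσσ' : ∀ s, aeval (inc X : Ix p κ → MvPolynomial (Fin (p + 1)) ℂ) (σ s) = map (algebraMap ℝ ℂ) (σ' s))
    (c : Fin (p + 1) → ℝ) (K : ℕ)
    (hK : ∀ a, (X a : MvPolynomial (Fin (p + 1)) ℝ) ^ K ∈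
      Ideal.map (aeval (Sum.elim (inc X) σ' : Var (Ix p κ) τ → MvPolynomial (Fin (p + 1)) ℝ)).toRingHom J ⊔
        Ideal.span {∑ a, C (c a) * X a})
    (ξ : Fin (p + 1) → ℝ) (hξ : ξ ≠ 0) (hξJ : IsZero J (inc ξ) (fun s => eval ξ (σ' s)))
    (huniq : ∀ x : Fin (p + 1) → ℝ, IsZero J (inc x) (fun s => eval x (σ' s)) → ∃ c : ℝ, x = c • ξ)
    (f : Fin p → MvPolynomial (Var (Ix p κ) τ) ℝ) (hf : ∀ j, f j ∈ J)
    (hloc : ∀ h ∈ J, ∃ δ : MvPolynomial (Var (Ix p κ) τ) ℝ,
      aeval (Sum.elim (inc ξ) (fun s => eval ξ (σ' s)) : Var (Ix p κ) τ → ℝ) δ ≠ 0 ∧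
        δ * h ∈ Ideal.span (insert F (Set.range f)))
    (hind : LinearIndependent ℝ (fun j : Fin p => fun a : Fin (p + 1) =>
      eval ξ (pderiv a (aeval (Sum.elim (inc X) σ' : Var (Ix p κ) τ → MvPolynomial (Fin (p + 1)) ℝ) (f j))))) :
    Nonempty (AOut F J σ) := by
  obtain ⟨R⟩ := pre_main F hF J hFJ hJ σ hσ hσF hσd
  exact aout_of_pre F J σ R (pMain F J hJ σ hσF hσd σ' hσ' hσσ' c K hK ξ hξ hξJ huniq f hf hloc hind R)

end Pool.Agent.Helper1.BP
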