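import Pool.Agent.Helper21.BPA.Defs

/-!
PROJECT BP (MP_1cfd37_ag), block A, module BP-A1.07 (stub by helper1): homogeneous components with a shift.

`WH w e d f` (helper21): every monomial of `f` has weight `d - e`. `cmp w e d f` is the part of `f` of weight `d - e` (zero if `d < e`).

Proofs: everything from `coeff_cmp` (`coeff_weightedHomogeneousComponent`; if `e <= d` then `weight m = d - e ↔ weight m + e = d`, if not then `weight m + e = d` is impossible).
`cmp_mul`: compare coefficients with `coeff_mul` (sum over the antidiagonal); where `coeff m1 g <> 0` we have `weight m1 + e = e'`, hence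
`weight (m1 + m2) + e = d ↔ weight m2 + e' = d`.
`exists_sum_cmp`: `D = 1 + e + sup over the support of f of the weight`; coefficient of `m` in the sum: `sum_(d < D') if weight m + e = d then coeff m f else 0`.
`cmp_mem_span`: `f = F a`, `F` is `WH w e (e + k)`, so `cmp w e d (F a) = F * cmp w (e + k) d a`.
`cmp_mulVec`: `mulVec` is a sum, `cmp` is additive, `cmp_mul` for every entry.
-/

set_option autoImplicit false

namespace Pool.Agent.Helper1.BP

open MvPolynomial Pool.Agent.Helper21.BPA

/-- The part of `f` of weight `d - e`. -/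
noncomputable def cmp {σ K : Type} [Field K] (w : σ → ℕ) (e d : ℕ) (f : MvPolynomial σ K) : MvPolynomial σ K :=
  if e ≤ d then weightedHomogeneousComponent w (d - e) f else 0

variable {σ K : Type} [Field K]

theorem coeff_cmp (w : σ → ℕ) (e d : ℕ) (f : MvPolynomial σ K) (m : σ →₀ ℕ) :
    coeff m (cmp w e d f) = if Finsupp.weight w m + e = d then coeff m f else 0 := by
  unfold cmp
  by_cases h : e ≤ d
  · rw [if_pos h, coeff_weightedHomogeneousComponent]
    by_cases h2 : Finsupp.weight w m = d - e
    · rw [if_pos h2, if_pos (by omega)]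
    · rw [if_neg h2, if_neg (by omega)]
  · rw [if_neg h, if_neg (by omega), coeff_zero]

theorem cmp_zero (w : σ → ℕ) (e d : ℕ) : cmp w e d (0 : MvPolynomial σ K) = 0 := by
  ext m
  rw [coeff_cmp]
  simp

theorem cmp_add (w : σ → ℕ) (e d : ℕ) (f g : MvPolynomial σ K) :
    cmp w e d (f + g) = cmp w e d f + cmp w e d g := by
  ext m
  rw [coeff_add, coeff_cmp, coeff_cmp, coeff_cmp, coeff_add]
  split_ifs <;> simp

theorem wh_cmp (w : σ → ℕ) (e d : ℕ) (f : MvPolynomial σ K) : WH w e d (cmp w e d f) := by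
  intro m hm
  rw [coeff_cmp] at hm
  by_contra h
  rw [if_neg h] at hm
  exact hm rfl

theorem cmp_self (w : σ → ℕ) (e d : ℕ) (f : MvPolynomial σ K) (hf : WH w e d f) : cmp w e d f = f := by
  ext m
  rw [coeff_cmp]
  by_cases h : coeff m f = 0
  · rw [h]; simp
  · rw [if_pos (hf m h)]

theorem cmp_mul (w : σ → ℕ) (e e' d : ℕ) (g f : MvPolynomial σ K) (hg : WH w e e' g) :
    cmp w e d (g * f) = g * cmp w e' d f := by
  classical
  ext m
  rw [coeff_cmp, coeff_mul, coeff_mul]
  have key : ∀ x ∈ Finset.HasAntidiagonal.antidiagonal m, coeff x.1 g * coeff x.2 (cmp w e' d f) =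
      if Finsupp.weight w m + e = d then coeff x.1 g * coeff x.2 f else 0 := by
    intro x hx
    rw [Finset.HasAntidiagonal.mem_antidiagonal] at hx
    rw [coeff_cmp]
    by_cases h : coeff x.1 g = 0
    · rw [h]; simp
    · have h1 := hg x.1 h
      have h2 : Finsupp.weight w m = Finsupp.weight w x.1 + Finsupp.weight w x.2 := by
        rw [← hx, map_add]
      by_cases h3 : Finsupp.weight w m + e = d
      · rw [if_pos h3, if_pos (by omega)]
      · rw [if_neg h3, if_neg (by omega), mul_zero]
  rw [Finset.sum_congr rfl key]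
  by_cases h3 : Finsupp.weight w m + e = d
  · simp only [if_pos h3]
  · simp only [if_neg h3, Finset.sum_const_zero]

private theorem cmp_sum (w : σ → ℕ) (e d : ℕ) {ι : Type} (s : Finset ι) (f : ι → MvPolynomial σ K) :
    cmp w e d (∑ i ∈ s, f i) = ∑ i ∈ s, cmp w e d (f i) := by
  classical
  induction s using Finset.induction_on with
  | empty => simp [cmp_zero]
  | insert a s ha ih => rw [Finset.sum_insert ha, Finset.sum_insert ha, cmp_add, ih]

theorem exists_sum_cmp (w : σ → ℕ) (e : ℕ) (f : MvPolynomial σ K) :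
    ∃ D : ℕ, ∀ D' ≥ D, ∑ d ∈ Finset.range D', cmp w e d f = f := by
  refine ⟨1 + e + f.support.sup (fun m => Finsupp.weight w m), fun D' hD' => ?_⟩
  ext m
  rw [coeff_sum]
  simp_rw [coeff_cmp]
  rw [Finset.sum_ite_eq]
  by_cases h : coeff m f = 0
  · rw [h]; simp
  · have h1 : Finsupp.weight w m ≤ f.support.sup (fun m => Finsupp.weight w m) :=
      Finset.le_sup (f := fun m => Finsupp.weight w m) (mem_support_iff.2 h)
    rw [if_pos (Finset.mem_range.2 (by omega))]

theorem cmp_mulVec (w : σ → ℕ) {a b : ℕ} (da : Fin a → ℕ) (db : Fin b → ℕ)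
    (A : Matrix (Fin a) (Fin b) (MvPolynomial σ K)) (hA : ∀ i j, WH w (da i) (db j) (A i j))
    (v : Fin b → MvPolynomial σ K) (d : ℕ) (i : Fin a) :
    cmp w (da i) d (A.mulVec v i) = A.mulVec (fun j => cmp w (db j) d (v j)) i := by
  simp only [Matrix.mulVec, dotProduct]
  rw [cmp_sum]
  exact Finset.sum_congr rfl fun j _ => cmp_mul w (da i) (db j) d (A i j) (v j) (hA i j)

theorem cmp_mem_span (w : σ → ℕ) (e d k : ℕ) (F : MvPolynomial σ K) (hF : IsWeightedHomogeneous w F k)
    (f : MvPolynomial σ K) (hf : f ∈ Ideal.span {F}) : cmp w e d f ∈ Ideal.span {F} := by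
  obtain ⟨a, rfl⟩ := Ideal.mem_span_singleton'.1 hf
  rw [mul_comm a F, cmp_mul w e (k + e) d F a (fun m hm => by rw [hF hm])]
  exact Ideal.mul_mem_right _ _ (Ideal.mem_span_singleton_self F)

end Pool.Agent.Helper1.BP
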