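import Pool.Agent.Helper21.BPA.Defs

/-!
PROJECT BP (MP_1cfd37_ag), block A, module BP-A1.17 (stub by helper1): syzygies of a matrix of constant rank are exact at every point.

Proof. `P(y) Q(y) = 0` gives one inclusion. Let `y0 <> 0`, `v0 ∈ ker P(y0)`. Choose complex matrices `U` (`r x a`), `V` (`b x r`) with `U P(y0) V = 1` (rank factorisation, `r = rank P(y0)`).
Over `S = MvPolynomial ι ℂ` put `A = U P V` (`U.map C * P * V.map C`, `r x r`), `Δ = det A`, and
`s = Δ • C v0 - V (adjugate A) U P (C v0) : Fin b → S`. Then `U P s = Δ U P v0 - A adj(A) U P v0 = 0` (`Matrix.mul_adjugate`).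
CLAIM `P s = 0`. At a point `y <> 0` with `Δ(y) <> 0`: rank `P(y) = r` and `U P(y) V` is invertible, so `U` restricted to the range of `P(y)` (dimension `r`) is onto `ℂ^r`, hence injective; `U (P(y) s(y)) = 0` gives
`P(y) s(y) = 0`. So for every row `a`, `Δ * X_k * (P s)_a` vanishes at every point (`k` any index of `ι`), hence it is `0` (`MvPolynomial.funext`), `Δ <> 0` because `Δ(y0) <> 0`: `(P s)_a = 0`.
By `hQ`, `s = Q u`. Evaluate at `y0`: `P(y0) v0 = 0`, so `s(y0) = Δ(y0) v0`, `v0 = Q(y0) (u(y0) / Δ(y0))`.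
-/

set_option autoImplicit false

namespace Pool.Agent.Helper1.BP

open MvPolynomial Pool.Agent.Helper21.BPA

/-- Rank factorisation: `U A V = 1` with `r = rank A`. -/
theorem exists_rank_fact {a b : ℕ} (A : Matrix (Fin a) (Fin b) ℂ) (r : ℕ) (hr : A.rank = r) :
    ∃ (U : Matrix (Fin r) (Fin a) ℂ) (V : Matrix (Fin b) (Fin r) ℂ), U * A * V = 1 := by
  classical
  have hfin : Module.finrank ℂ (LinearMap.range A.mulVecLin) = r := hr
  let bs : Module.Basis (Fin r) ℂ (LinearMap.range A.mulVecLin) :=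
    Module.finBasisOfFinrankEq ℂ _ hfin
  have hv : ∀ i, ∃ v : Fin b → ℂ, A.mulVecLin v = (bs i : Fin a → ℂ) := fun i => (bs i).2
  choose v hv using hv
  obtain ⟨g, hg⟩ := LinearMap.exists_leftInverse_of_injective (LinearMap.range A.mulVecLin).subtype
    (Submodule.ker_subtype _)
  let h : (Fin a → ℂ) →ₗ[ℂ] (Fin r → ℂ) := bs.equivFun.toLinearMap ∘ₗ g
  refine ⟨LinearMap.toMatrix' h, Matrix.of (fun i j => v j i), ?_⟩
  ext i j
  have h1 : (LinearMap.toMatrix' h * A * Matrix.of (fun i j => v j i)) i j =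
      ((LinearMap.toMatrix' h).mulVec (A.mulVec (v j))) i := by
    rw [Matrix.mulVec_mulVec, Matrix.mul_apply]
    rfl
  have h2 : A.mulVec (v j) = (LinearMap.range A.mulVecLin).subtype (bs j) := by
    rw [Submodule.subtype_apply, ← hv j, Matrix.mulVecLin_apply]
  have h3 : (LinearMap.toMatrix' h).mulVec (A.mulVec (v j)) = h (A.mulVec (v j)) :=
    LinearMap.toMatrix'_mulVec h _
  have h4 : h (A.mulVec (v j)) = bs.equivFun (bs j) := by
    rw [h2]
    show bs.equivFun (g ((LinearMap.range A.mulVecLin).subtype (bs j))) = _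
    have := LinearMap.congr_fun hg (bs j)
    rw [LinearMap.comp_apply, LinearMap.id_apply] at this
    rw [this]
  rw [h1, h3, h4, Module.Basis.equivFun_self]
  rw [Matrix.one_apply]
  by_cases hij : i = j
  · subst hij; simp
  · rw [if_neg hij]
    simp [Finsupp.single_apply, Pi.single_apply, hij, Ne.symm hij]

/-- If `U B V` is invertible of size the rank of `B` then `U` is injective on the range of `B`. -/
theorem inj_on_range {a b r : ℕ} (B : Matrix (Fin a) (Fin b) ℂ) (hr : B.rank = r)
    (U : Matrix (Fin r) (Fin a) ℂ) (V : Matrix (Fin b) (Fin r) ℂ) (hdet : (U * B * V).det ≠ 0)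
    (x : Fin b → ℂ) (hx : U.mulVec (B.mulVec x) = 0) : B.mulVec x = 0 := by
  classical
  let f : LinearMap.range B.mulVecLin →ₗ[ℂ] (Fin r → ℂ) :=
    U.mulVecLin ∘ₗ (LinearMap.range B.mulVecLin).subtype
  have hfin : Module.finrank ℂ (LinearMap.range B.mulVecLin) = Module.finrank ℂ (Fin r → ℂ) := by
    rw [Module.finrank_fin_fun]
    exact hr
  have hsurj : Function.Surjective f := by
    intro z
    have hu : IsUnit (U * B * V) := (Matrix.isUnit_iff_isUnit_det _).2 (isUnit_iff_ne_zero.2 hdet)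
    obtain ⟨t, ht⟩ := (Matrix.mulVec_surjective_iff_isUnit.2 hu) z
    refine ⟨⟨B.mulVecLin (V.mulVec t), LinearMap.mem_range_self _ _⟩, ?_⟩
    show U.mulVec (B.mulVec (V.mulVec t)) = z
    rw [Matrix.mulVec_mulVec, Matrix.mulVec_mulVec]
    exact ht
  have hinj : Function.Injective f :=
    (LinearMap.injective_iff_surjective_of_finrank_eq_finrank hfin).2 hsurj
  have h0 : (⟨B.mulVecLin x, LinearMap.mem_range_self _ _⟩ : LinearMap.range B.mulVecLin) = 0 := by
    apply hinj
    rw [map_zero]
    exact hx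
  exact congrArg Subtype.val h0

theorem eval_mulVec {ι : Type} {a b : ℕ} (M : Matrix (Fin a) (Fin b) (MvPolynomial ι ℂ))
    (v : Fin b → MvPolynomial ι ℂ) (y : ι → ℂ) (i : Fin a) :
    eval y (M.mulVec v i) = (M.map (eval y)).mulVec (fun j => eval y (v j)) i := by
  simp only [Matrix.mulVec, dotProduct, map_sum, map_mul, Matrix.map_apply]

theorem ex2_of_rank {ι : Type} [Fintype ι] [Nonempty ι] {a b c : ℕ}
    (P : Matrix (Fin a) (Fin b) (MvPolynomial ι ℂ)) (Q : Matrix (Fin b) (Fin c) (MvPolynomial ι ℂ)) (r : ℕ)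
    (hr : ∀ y : ι → ℂ, y ≠ 0 → (P.map (eval y)).rank = r) (hPQ : P * Q = 0)
    (hQ : ∀ v, P.mulVec v = 0 → ∃ u, Q.mulVec u = v) :
    ∀ y : ι → ℂ, y ≠ 0 → Ex2 (P.map (eval y)) (Q.map (eval y)) := by
  classical
  intro y0 hy0 v0
  constructor
  swap
  · rintro ⟨u, rfl⟩
    rw [Matrix.mulVec_mulVec]
    have h1 : (P.map (eval y0)) * (Q.map (eval y0)) = (P * Q).map (eval y0) := by
      rw [Matrix.map_mul]
    rw [h1, hPQ]
    have h2 : (0 : Matrix (Fin a) (Fin c) (MvPolynomial ι ℂ)).map (eval y0) = 0 :=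
      Matrix.map_zero _ (map_zero _)
    rw [h2, Matrix.zero_mulVec]
  intro hv0
  obtain ⟨U, V, hUV⟩ := exists_rank_fact (P.map (eval y0)) r (hr y0 hy0)
  set Us : Matrix (Fin r) (Fin a) (MvPolynomial ι ℂ) := U.map C with hUs
  set Vs : Matrix (Fin b) (Fin r) (MvPolynomial ι ℂ) := V.map C with hVs
  set A : Matrix (Fin r) (Fin r) (MvPolynomial ι ℂ) := Us * P * Vs with hA
  set vs : Fin b → MvPolynomial ι ℂ := fun j => C (v0 j) with hvs
  set s : Fin b → MvPolynomial ι ℂ :=
    A.det • vs - Vs.mulVec (A.adjugate.mulVec (Us.mulVec (P.mulVec vs))) with hs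
  have hUsy : ∀ y : ι → ℂ, Us.map (eval y) = U := fun y => by
    ext i j
    simp [hUs]
  have hVsy : ∀ y : ι → ℂ, Vs.map (eval y) = V := fun y => by
    ext i j
    simp [hVs]
  have hAy : ∀ y : ι → ℂ, A.map (eval y) = U * P.map (eval y) * V := fun y => by
    rw [hA, Matrix.map_mul, Matrix.map_mul, hUsy, hVsy]
  have hdety : ∀ y : ι → ℂ, eval y A.det = (U * P.map (eval y) * V).det := fun y => by
    rw [← hAy y]
    exact RingHom.map_det (eval y) A
  have hUPs : Us.mulVec (P.mulVec s) = 0 := by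
    have e1 : Us.mulVec (P.mulVec (Vs.mulVec (A.adjugate.mulVec (Us.mulVec (P.mulVec vs))))) =
        A.det • Us.mulVec (P.mulVec vs) := by
      rw [Matrix.mulVec_mulVec, Matrix.mulVec_mulVec, Matrix.mulVec_mulVec, ← hA,
        Matrix.mul_adjugate, Matrix.smul_mulVec, Matrix.one_mulVec]
    rw [hs, Matrix.mulVec_sub, Matrix.mulVec_sub, e1, Matrix.mulVec_smul, Matrix.mulVec_smul, sub_self]
  have hPs : P.mulVec s = 0 := by
    funext i
    rw [Pi.zero_apply]
    obtain ⟨k⟩ := (inferInstance : Nonempty ι)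
    have hz : A.det * X k * P.mulVec s i = 0 := by
      apply MvPolynomial.funext
      intro y
      rw [map_zero, map_mul, map_mul, eval_X]
      by_cases hy : y = 0
      · rw [hy, Pi.zero_apply, mul_zero, zero_mul]
      by_cases hd : eval y A.det = 0
      · rw [hd, zero_mul, zero_mul]
      have h1 : (P.map (eval y)).mulVec (fun j => eval y (s j)) = 0 := by
        apply inj_on_range _ (hr y hy) U V
        · rw [← hdety y]
          exact hd
        · have h2 : (fun i => eval y (P.mulVec s i)) = (P.map (eval y)).mulVec (fun j => eval y (s j)) := by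
            funext i
            exact eval_mulVec P s y i
          rw [← h2]
          funext i
          have h3 := eval_mulVec Us (P.mulVec s) y i
          rw [hUsy] at h3
          rw [← h3, hUPs, Pi.zero_apply, map_zero, Pi.zero_apply]
      rw [eval_mulVec, h1, Pi.zero_apply, mul_zero]
    have hne : A.det * X k ≠ 0 := by
      apply mul_ne_zero
      · intro h0
        have h1 := hdety y0
        rw [h0, map_zero, hUV, Matrix.det_one] at h1
        exact zero_ne_one h1
      · exact X_ne_zero k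
    exact (mul_eq_zero.1 hz).resolve_left hne
  obtain ⟨u, hu⟩ := hQ s hPs
  refine ⟨fun j => eval y0 (u j), ?_⟩
  funext i
  rw [← eval_mulVec, hu, hs, Pi.sub_apply, map_sub, Pi.smul_apply, smul_eq_mul, map_mul, hdety, hUV,
    Matrix.det_one, one_mul, eval_mulVec]
  have h1 : (fun j => eval y0 ((A.adjugate.mulVec (Us.mulVec (P.mulVec vs))) j)) = 0 := by
    funext j
    rw [eval_mulVec]
    have h2 : (fun j => eval y0 ((Us.mulVec (P.mulVec vs)) j)) = 0 := by
      funext j
      rw [eval_mulVec]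
      have h3 : (fun j => eval y0 ((P.mulVec vs) j)) = 0 := by
        funext j
        rw [eval_mulVec]
        have h4 : (fun j => eval y0 (vs j)) = v0 := by
          funext j
          rw [hvs]
          exact eval_C _
        rw [h4, hv0]
      rw [h3, Matrix.mulVec_zero]
    rw [h2, Matrix.mulVec_zero]
  rw [h1, Matrix.mulVec_zero, Pi.zero_apply, sub_zero, hvs]
  exact eval_C _

/-- Rank-nullity for an exact pair. -/
theorem rank_add {a b c : ℕ} (A : Matrix (Fin a) (Fin b) ℂ) (B : Matrix (Fin b) (Fin c) ℂ) (h : Ex2 A B) :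
    A.rank + B.rank = b := by
  have h1 : LinearMap.ker A.mulVecLin = LinearMap.range B.mulVecLin := by
    ext v
    rw [LinearMap.mem_ker, LinearMap.mem_range]
    exact h v
  have h2 := LinearMap.finrank_range_add_finrank_ker A.mulVecLin
  rw [h1, Module.finrank_fin_fun] at h2
  exact h2

end Pool.Agent.Helper1.BP
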