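import Pool.Agent.Helper1.BP.Div

/-!
PROJECT BP (MP_1cfd37_ag), block A, module BP-A1.14 (stub by helper1): extension of scalars from `ℝ` to `ℂ` keeps exactness modulo `F`.

Proof. Let `ρ = map (algebraMap ℝ ℂ)`. Every complex polynomial is uniquely `f = ρ f1 + C I * ρ f2` (`f1, f2` = coefficientwise real and imaginary part; for existence: induction on `f`
or `Finsupp.mapRange` / `MvPolynomial.map` with `Complex.reLm`, or sum over the support of `monomial m (coeff.re)`). `ρ f1 + C I * ρ f2 ∈ span {ρ F}` iff `f1 ∈ span {F}` and `f2 ∈ span {F}`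
(if it is `ρ F * (ρ g1 + C I * ρ g2)`, compare: `f1 = F g1`, `f2 = F g2`, by uniqueness). For a vector `v = ρ v1 + C I * ρ v2`: `(A.map ρ).mulVec v = ρ (A v1) + C I * ρ (A v2)`, so the hypothesis for `v`
gives it for `v1`, `v2`; take `u = ρ u1 + C I * ρ u2`.
-/

set_option autoImplicit false

namespace Pool.Agent.Helper1.BP

open MvPolynomial

theorem cx_exists {σ : Type} (f : MvPolynomial σ ℂ) : ∃ f1 f2 : MvPolynomial σ ℝ,
    f = MvPolynomial.map (algebraMap ℝ ℂ) f1 + C Complex.I * MvPolynomial.map (algebraMap ℝ ℂ) f2 := by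
  induction f using MvPolynomial.induction_on with
  | C a =>
    refine ⟨C a.re, C a.im, ?_⟩
    rw [map_C, map_C, ← C_mul, ← C_add]
    congr 1
    simp only [Complex.coe_algebraMap]
    rw [mul_comm]
    exact (Complex.re_add_im a).symm
  | add p q hp hq =>
    obtain ⟨p1, p2, hp⟩ := hp
    obtain ⟨q1, q2, hq⟩ := hq
    refine ⟨p1 + q1, p2 + q2, ?_⟩
    rw [hp, hq, map_add, map_add]
    ring
  | mul_X p n hp =>
    obtain ⟨p1, p2, hp⟩ := hp
    refine ⟨p1 * X n, p2 * X n, ?_⟩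
    rw [hp, map_mul, map_mul, map_X]
    ring

theorem cx_unique {σ : Type} {f1 f2 g1 g2 : MvPolynomial σ ℝ}
    (h : MvPolynomial.map (algebraMap ℝ ℂ) f1 + C Complex.I * MvPolynomial.map (algebraMap ℝ ℂ) f2 =
      MvPolynomial.map (algebraMap ℝ ℂ) g1 + C Complex.I * MvPolynomial.map (algebraMap ℝ ℂ) g2) :
    f1 = g1 ∧ f2 = g2 := by
  have key : ∀ m, coeff m f1 = coeff m g1 ∧ coeff m f2 = coeff m g2 := by
    intro m
    have h1 := congrArg (coeff m) h
    rw [coeff_add, coeff_add, coeff_C_mul, coeff_C_mul, coeff_map, coeff_map, coeff_map, coeff_map] at h1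
    simp only [Complex.coe_algebraMap] at h1
    have h2 := congrArg Complex.re h1
    have h3 := congrArg Complex.im h1
    simp at h2 h3
    exact ⟨h2, h3⟩
  exact ⟨MvPolynomial.ext _ _ fun m => (key m).1, MvPolynomial.ext _ _ fun m => (key m).2⟩

theorem cx_mem {σ : Type} (F f1 f2 : MvPolynomial σ ℝ) :
    MvPolynomial.map (algebraMap ℝ ℂ) f1 + C Complex.I * MvPolynomial.map (algebraMap ℝ ℂ) f2 ∈
      Ideal.span {MvPolynomial.map (algebraMap ℝ ℂ) F} ↔ f1 ∈ Ideal.span {F} ∧ f2 ∈ Ideal.span {F} := by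
  simp only [Ideal.mem_span_singleton']
  constructor
  · rintro ⟨g, hg⟩
    obtain ⟨g1, g2, rfl⟩ := cx_exists g
    have h1 : MvPolynomial.map (algebraMap ℝ ℂ) (g1 * F) +
        C Complex.I * MvPolynomial.map (algebraMap ℝ ℂ) (g2 * F) =
        MvPolynomial.map (algebraMap ℝ ℂ) f1 + C Complex.I * MvPolynomial.map (algebraMap ℝ ℂ) f2 := by
      rw [← hg, map_mul, map_mul]
      ring
    obtain ⟨h2, h3⟩ := cx_unique h1
    exact ⟨⟨g1, h2⟩, ⟨g2, h3⟩⟩
  · rintro ⟨⟨g1, rfl⟩, ⟨g2, rfl⟩⟩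
    refine ⟨MvPolynomial.map (algebraMap ℝ ℂ) g1 + C Complex.I * MvPolynomial.map (algebraMap ℝ ℂ) g2, ?_⟩
    rw [map_mul, map_mul]
    ring

theorem cx_mulVec {σ : Type} {a b : ℕ} (A : Matrix (Fin a) (Fin b) (MvPolynomial σ ℝ))
    (v1 v2 : Fin b → MvPolynomial σ ℝ) (i : Fin a) :
    (A.map (MvPolynomial.map (algebraMap ℝ ℂ))).mulVec
      (fun j => MvPolynomial.map (algebraMap ℝ ℂ) (v1 j) + C Complex.I * MvPolynomial.map (algebraMap ℝ ℂ) (v2 j)) i =
      MvPolynomial.map (algebraMap ℝ ℂ) (A.mulVec v1 i) +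
        C Complex.I * MvPolynomial.map (algebraMap ℝ ℂ) (A.mulVec v2 i) := by
  simp only [Matrix.mulVec, dotProduct, Matrix.map_apply, map_sum, map_mul]
  rw [Finset.mul_sum, ← Finset.sum_add_distrib]
  refine Finset.sum_congr rfl fun j _ => ?_
  ring

theorem exMod_complex {σ : Type} (F : MvPolynomial σ ℝ) {a b c : ℕ} (A : Matrix (Fin a) (Fin b) (MvPolynomial σ ℝ))
    (B : Matrix (Fin b) (Fin c) (MvPolynomial σ ℝ)) (h : ExMod (Ideal.span {F}) A B) :
    ExMod (Ideal.span {MvPolynomial.map (algebraMap ℝ ℂ) F}) (A.map (MvPolynomial.map (algebraMap ℝ ℂ)))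
      (B.map (MvPolynomial.map (algebraMap ℝ ℂ))) := by
  intro v hv
  choose v1 v2 hv12 using fun j => cx_exists (v j)
  have hv' : v = fun j => MvPolynomial.map (algebraMap ℝ ℂ) (v1 j) +
      C Complex.I * MvPolynomial.map (algebraMap ℝ ℂ) (v2 j) := funext hv12
  rw [hv'] at hv ⊢
  have h1 : ∀ i, A.mulVec v1 i ∈ Ideal.span {F} ∧ A.mulVec v2 i ∈ Ideal.span {F} := by
    intro i
    have h2 := hv i
    rw [cx_mulVec] at h2
    exact (cx_mem F _ _).1 h2
  obtain ⟨u1, hu1⟩ := h v1 fun i => (h1 i).1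
  obtain ⟨u2, hu2⟩ := h v2 fun i => (h1 i).2
  refine ⟨fun j => MvPolynomial.map (algebraMap ℝ ℂ) (u1 j) +
    C Complex.I * MvPolynomial.map (algebraMap ℝ ℂ) (u2 j), fun j => ?_⟩
  rw [cx_mulVec]
  have e : MvPolynomial.map (algebraMap ℝ ℂ) (v1 j) + C Complex.I * MvPolynomial.map (algebraMap ℝ ℂ) (v2 j) -
      (MvPolynomial.map (algebraMap ℝ ℂ) (B.mulVec u1 j) +
        C Complex.I * MvPolynomial.map (algebraMap ℝ ℂ) (B.mulVec u2 j)) =
      MvPolynomial.map (algebraMap ℝ ℂ) (v1 j - B.mulVec u1 j) +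
        C Complex.I * MvPolynomial.map (algebraMap ℝ ℂ) (v2 j - B.mulVec u2 j) := by
    rw [map_sub, map_sub]
    ring
  rw [e]
  exact (cx_mem F _ _).2 ⟨hu1 j, hu2 j⟩

end Pool.Agent.Helper1.BP
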