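import Mathlib

/-!
PROJECT BP (MP_1cfd37_ag), block A, module BP-A1.10 (stub by helper1): dividing an exact complex of free modules by a nonzerodivisor.

`ExMod I A B`: modulo the ideal `I`, the kernel of `A` is contained in the image of `B`.

Proof of `div_step`. Let `B v ∈ I + (x)` entrywise: `B v = w1 + x w2`, `w1 ∈ I` (entrywise, `Ideal.mem_sup`, `Ideal.mem_span_singleton'`). `A (B v) ∈ I` (`hAB`) and `A w1 ∈ I`, so `x (A w2) ∈ I`,
`A w2 ∈ I` by `hx`. `h1`: `w2 - B u ∈ I`. So `B (v - x u) = w1 + x (w2 - B u) ∈ I`, `h2`: `v - x u - D u' ∈ I`, hence `v - D u' ∈ I + (x)`.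
-/

set_option autoImplicit false

namespace Pool.Agent.Helper1.BP

/-- Exactness modulo an ideal (kernel contained in the image). -/
def ExMod {S : Type*} [CommRing S] (I : Ideal S) {a b c : ℕ} (A : Matrix (Fin a) (Fin b) S)
    (B : Matrix (Fin b) (Fin c) S) : Prop :=
  ∀ v : Fin b → S, (∀ i, A.mulVec v i ∈ I) → ∃ u : Fin c → S, ∀ j, v j - B.mulVec u j ∈ I

private theorem mulVec_mem {S : Type*} [CommRing S] (I : Ideal S) {a b : ℕ} (A : Matrix (Fin a) (Fin b) S) (w : Fin b → S)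
    (hw : ∀ j, w j ∈ I) (i : Fin a) : A.mulVec w i ∈ I := by
  rw [Matrix.mulVec, dotProduct]
  exact Ideal.sum_mem _ fun j _ => Ideal.mul_mem_left _ _ (hw j)

private theorem mulVec_mem' {S : Type*} [CommRing S] (I : Ideal S) {a b : ℕ} (A : Matrix (Fin a) (Fin b) S) (w : Fin b → S)
    (hA : ∀ i j, A i j ∈ I) (i : Fin a) : A.mulVec w i ∈ I := by
  rw [Matrix.mulVec, dotProduct]
  exact Ideal.sum_mem _ fun j _ => Ideal.mul_mem_right _ _ (hA i j)

theorem div_step {S : Type*} [CommRing S] (I : Ideal S) (x : S) (hx : ∀ g, x * g ∈ I → g ∈ I) {a b c d : ℕ}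
    (A : Matrix (Fin a) (Fin b) S) (B : Matrix (Fin b) (Fin c) S) (D : Matrix (Fin c) (Fin d) S)
    (hAB : ∀ i j, (A * B) i j ∈ I) (h1 : ExMod I A B) (h2 : ExMod I B D) :
    ExMod (I ⊔ Ideal.span {x}) B D := by
  intro v hv
  have h3 : ∀ i, ∃ w1 w2 : S, w1 ∈ I ∧ B.mulVec v i = w1 + x * w2 := by
    intro i
    obtain ⟨w1, hw1, z, hz, hsum⟩ := Submodule.mem_sup.1 (hv i)
    obtain ⟨w2, hw2⟩ := Ideal.mem_span_singleton'.1 hz
    exact ⟨w1, w2, hw1, by rw [← hsum, ← hw2]; ring⟩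
  choose w1 w2 hw1 hw using h3
  have hBv : B.mulVec v = w1 + x • w2 := by
    ext i
    rw [hw i]
    rfl
  -- `A w2 ∈ I`
  have h4 : ∀ i, A.mulVec w2 i ∈ I := by
    intro i
    apply hx
    have h5 : A.mulVec (B.mulVec v) i ∈ I := by
      rw [Matrix.mulVec_mulVec]
      exact mulVec_mem' I _ v hAB i
    rw [hBv, Matrix.mulVec_add, Matrix.mulVec_smul] at h5
    have h6 := I.sub_mem h5 (mulVec_mem I A w1 hw1 i)
    simpa using h6
  obtain ⟨u, hu⟩ := h1 w2 h4
  obtain ⟨u', hu'⟩ := h2 (v - x • u) (by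
    intro i
    rw [Matrix.mulVec_sub, Matrix.mulVec_smul, hBv]
    have h7 : (w1 + x • w2 - x • B.mulVec u) i = w1 i + x * (w2 i - B.mulVec u i) := by
      simp only [Pi.sub_apply, Pi.add_apply, Pi.smul_apply, smul_eq_mul]
      ring
    rw [h7]
    exact I.add_mem (hw1 i) (I.mul_mem_left x (hu i)))
  refine ⟨u', fun j => ?_⟩
  have h8 : v j - D.mulVec u' j = ((v - x • u) j - D.mulVec u' j) + x * u j := by
    simp only [Pi.sub_apply, Pi.smul_apply, smul_eq_mul]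
    ring
  rw [h8]
  exact Ideal.add_mem _ (Ideal.mem_sup_left (hu' j))
    (Ideal.mem_sup_right (Ideal.mul_mem_right _ _ (Ideal.mem_span_singleton_self x)))

end Pool.Agent.Helper1.BP
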