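import Mathlib

/-!
PROJECT BP (MP_1cfd37_ag), block A, module BP-A1.11 (stub by helper1): the ideals `(F, x_i - w_i : i in T)`.

`sb w T` substitutes `x_i := w_i` for `i ∈ T`.

Proofs. `sb_sub`: `g - sb w T g ∈ span {X_i - C w_i : i in T}` (induction on `g`: constants, sums, products with a variable).
`mem_IT_iff`: `→`: `sb` kills the `X_i - C w_i`, `i in T`, so `sb` maps `IT` into `(sb F)` (`Ideal.map_le_iff_le_comap`, or `Submodule.span_induction`).
`←`: `sb g = b * sb F`; `g - sb g` and `F - sb F` are in `IT`, `F ∈ IT`, so `sb F ∈ IT`, `sb g ∈ IT`, `g ∈ IT`.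
`IT_insert`: `Finset.coe_insert`, `Set.image_insert_eq`, `Ideal.span_insert`, lattice.
`nzd`: by `mem_IT_iff`, `(X_k - C w_k) * sb T g = b * sb T F` (`sb T` fixes `X_k`, `k ∉ T`). If `F = 0`: then `sb T g = 0` (domain). If `sb (insert k T) F <> 0`: apply `sb {k}` (note `sb {k} (sb T F) = sb (insert k T) F`):
`0 = sb {k} b * sb (insert k T) F`, so `sb {k} b = 0` and `b = b - sb {k} b = (X_k - C w_k) b'` by `sb_sub` for `T = {k}`. Cancel: `sb T g = b' * sb T F`.
-/

set_option autoImplicit false

namespace Pool.Agent.Helper1.BP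

open MvPolynomial

variable {σ K : Type} [DecidableEq σ] [Field K]

/-- Substitution of the values `w_i` for the variables in `T`. -/
noncomputable def sb (w : σ → K) (T : Finset σ) : MvPolynomial σ K →ₐ[K] MvPolynomial σ K :=
  aeval (fun i => if i ∈ T then C (w i) else X i)

/-- The ideal `(F, x_i - w_i : i in T)`. -/
noncomputable def IT (F : MvPolynomial σ K) (w : σ → K) (T : Finset σ) : Ideal (MvPolynomial σ K) :=
  Ideal.span {F} ⊔ Ideal.span ((fun i => X i - C (w i)) '' (T : Set σ))

private theorem sb_X (w : σ → K) (T : Finset σ) (i : σ) :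
    sb w T (X i) = if i ∈ T then C (w i) else X i := by
  rw [sb, aeval_X]

private theorem sb_C (w : σ → K) (T : Finset σ) (a : K) : sb w T (C a) = C a := by
  rw [sb, aeval_C]
  rfl

theorem sb_sub (w : σ → K) (T : Finset σ) (g : MvPolynomial σ K) :
    g - sb w T g ∈ Ideal.span ((fun i => (X i - C (w i) : MvPolynomial σ K)) '' (T : Set σ)) := by
  induction g using MvPolynomial.induction_on with
  | C a => rw [sb_C, sub_self]; exact Submodule.zero_mem _
  | add p q hp hq =>
    have : p + q - sb w T (p + q) = (p - sb w T p) + (q - sb w T q) := by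
      rw [map_add]; ring
    rw [this]
    exact Submodule.add_mem _ hp hq
  | mul_X p i hp =>
    have h1 : p * X i - sb w T (p * X i) = X i * (p - sb w T p) + sb w T p * (X i - sb w T (X i)) := by
      rw [map_mul]; ring
    rw [h1]
    refine Submodule.add_mem _ (Ideal.mul_mem_left _ _ hp) (Ideal.mul_mem_left _ _ ?_)
    rw [sb_X]
    by_cases hi : i ∈ T
    · rw [if_pos hi]
      exact Ideal.subset_span ⟨i, hi, rfl⟩
    · rw [if_neg hi, sub_self]
      exact Submodule.zero_mem _

theorem sb_sb (w : σ → K) (T T' : Finset σ) (g : MvPolynomial σ K) : sb w T (sb w T' g) = sb w (T ∪ T') g := by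
  have h : (sb w T).comp (sb w T') = sb w (T ∪ T') := by
    refine MvPolynomial.algHom_ext fun i => ?_
    rw [AlgHom.comp_apply, sb_X, sb_X]
    by_cases h' : i ∈ T'
    · rw [if_pos h', if_pos (Finset.mem_union_right _ h'), sb_C]
    · rw [if_neg h', sb_X]
      by_cases h1 : i ∈ T
      · rw [if_pos h1, if_pos (Finset.mem_union_left _ h1)]
      · rw [if_neg h1, if_neg]
        intro h2
        exact (Finset.mem_union.mp h2).elim h1 h'
  exact DFunLike.congr_fun h g

theorem eval_sb (w : σ → K) (T : Finset σ) (g : MvPolynomial σ K) : eval w (sb w T g) = eval w g := by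
  have h : (aeval w : MvPolynomial σ K →ₐ[K] K).comp (sb w T) = aeval w := by
    refine MvPolynomial.algHom_ext fun i => ?_
    rw [AlgHom.comp_apply, sb_X, aeval_X]
    by_cases h' : i ∈ T
    · rw [if_pos h', aeval_C]; rfl
    · rw [if_neg h', aeval_X]
  have h2 := DFunLike.congr_fun h g
  rw [AlgHom.comp_apply] at h2
  exact h2

private theorem F_mem (F : MvPolynomial σ K) (w : σ → K) (T : Finset σ) : F ∈ IT F w T :=
  Submodule.mem_sup_left (Ideal.mem_span_singleton_self F)

private theorem sub_mem_IT (F : MvPolynomial σ K) (w : σ → K) (T : Finset σ) (g : MvPolynomial σ K) :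
    g - sb w T g ∈ IT F w T := Submodule.mem_sup_right (sb_sub w T g)

theorem mem_IT_iff (F : MvPolynomial σ K) (w : σ → K) (T : Finset σ) (g : MvPolynomial σ K) :
    g ∈ IT F w T ↔ sb w T g ∈ Ideal.span {sb w T F} := by
  constructor
  · intro hg
    have hle : IT F w T ≤ Ideal.comap (sb w T) (Ideal.span {sb w T F}) := by
      refine sup_le ?_ ?_
      · rw [Ideal.span_le]
        rintro x hx
        rw [Set.mem_singleton_iff] at hx
        rw [hx]
        exact Ideal.mem_span_singleton_self _
      · rw [Ideal.span_le]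
        rintro _ ⟨i, hi, rfl⟩
        have hi' : i ∈ T := hi
        change sb w T (X i - C (w i)) ∈ Ideal.span {sb w T F}
        rw [map_sub, sb_X, sb_C, if_pos hi', sub_self]
        exact Submodule.zero_mem _
    exact hle hg
  · intro hg
    obtain ⟨b, hb⟩ := Ideal.mem_span_singleton'.mp hg
    have h1 : sb w T F ∈ IT F w T := by
      have := (IT F w T).sub_mem (F_mem F w T) (sub_mem_IT F w T F)
      rwa [sub_sub_cancel] at this
    have h2 : sb w T g ∈ IT F w T := by
      rw [← hb]
      exact (IT F w T).mul_mem_left _ h1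
    have h3 := (IT F w T).add_mem (sub_mem_IT F w T g) h2
    rwa [sub_add_cancel] at h3

theorem IT_insert (F : MvPolynomial σ K) (w : σ → K) (T : Finset σ) (k : σ) :
    IT F w (insert k T) = IT F w T ⊔ Ideal.span {X k - C (w k)} := by
  rw [IT, IT, Finset.coe_insert, Set.image_insert_eq, Ideal.span_insert, sup_assoc, sup_comm (Ideal.span {X k - C (w k)})]

theorem nzd (F : MvPolynomial σ K) (w : σ → K) (T : Finset σ) (k : σ) (hk : k ∉ T)
    (hF : F = 0 ∨ sb w (insert k T) F ≠ 0) (g : MvPolynomial σ K)
    (hg : (X k - C (w k)) * g ∈ IT F w T) : g ∈ IT F w T := by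
  rw [mem_IT_iff] at hg ⊢
  obtain ⟨b, hb⟩ := Ideal.mem_span_singleton'.mp hg
  rw [map_mul, map_sub, sb_X, sb_C, if_neg hk] at hb
  have hne : (X k - C (w k) : MvPolynomial σ K) ≠ 0 := by
    intro h0
    have h1 := congrArg (eval fun _ => w k + 1) h0
    rw [map_sub, eval_X, eval_C, map_zero] at h1
    have h2 : (1 : K) = 0 := by linear_combination h1
    exact one_ne_zero h2
  rcases hF with hF | hF
  · rw [hF, map_zero, mul_zero] at hb
    have h1 := (mul_eq_zero.mp hb.symm).resolve_left hne
    rw [h1]
    exact Submodule.zero_mem _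
  · have h1 := congrArg (sb w {k}) hb
    rw [map_mul, sb_sb, map_mul, map_sub, sb_X, sb_C, if_pos (Finset.mem_singleton_self k), sub_self, zero_mul,
      ← Finset.insert_eq] at h1
    have h2 := (mul_eq_zero.mp h1).resolve_right hF
    have h3 := sb_sub w {k} b
    rw [h2, sub_zero, Finset.coe_singleton, Set.image_singleton] at h3
    obtain ⟨c, hc⟩ := Ideal.mem_span_singleton'.mp h3
    rw [← hc] at hb
    have h4 : (X k - C (w k)) * (c * sb w T F) = (X k - C (w k)) * sb w T g := by
      rw [← hb]; ring
    exact Ideal.mem_span_singleton'.mpr ⟨c, mul_left_cancel₀ hne h4⟩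

end Pool.Agent.Helper1.BP
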