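import Pool.Agent.Helper1.BP.Div
import Pool.Agent.Helper1.BP.IT

/-!
PROJECT BP (MP_1cfd37_ag), block A, module BP-A1.12 (stub by helper1): division by several coordinates.

Proof. `Finset.induction` on `T`. `T = ∅`: `IT F w ∅ = span {F}` (the image of the empty set spans `⊥`). Step `insert k T`, `k ∉ T`: if `F <> 0` then `sb w (insert k T) F <> 0` implies
`sb w T F <> 0` (`sb_sb`). Let `i >= s + card T + 1`, `i < t`; write `i = i' + 1`, `i' >= s + card T`. The induction hypothesis gives `ExMod (IT F w T)` for `(D i', D (i'+1))` and for `(D (i'+1), D (i'+2))`;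
`(D i' * D (i'+1))` has entries in `span {F} <= IT F w T`; `div_step` with `x = X k - C (w k)`, `hx = nzd ..`, and `IT_insert`.
-/

set_option autoImplicit false

namespace Pool.Agent.Helper1.BP

open MvPolynomial

theorem div_all {σ K : Type} [DecidableEq σ] [Field K] (F : MvPolynomial σ K) (w : σ → K) (rk : ℕ → ℕ)
    (D : (i : ℕ) → Matrix (Fin (rk i)) (Fin (rk (i + 1))) (MvPolynomial σ K)) (s t : ℕ)
    (hc : ∀ i, s ≤ i → i < t → ∀ a b, (D i * D (i + 1)) a b ∈ Ideal.span {F})
    (he : ∀ i, s ≤ i → i < t → ExMod (Ideal.span {F}) (D i) (D (i + 1)))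
    (T : Finset σ) (hT : F = 0 ∨ sb w T F ≠ 0) :
    ∀ i, s + T.card ≤ i → i < t → ExMod (IT F w T) (D i) (D (i + 1)) := by
  induction T using Finset.induction_on with
  | empty =>
    intro i hi hit
    have h1 : IT F w ∅ = Ideal.span {F} := by
      rw [IT, Finset.coe_empty, Set.image_empty, Ideal.span_empty, sup_bot_eq]
    rw [h1]
    exact he i (by simpa using hi) hit
  | insert k T hk ih =>
    intro i hi hit
    rw [Finset.card_insert_of_notMem hk] at hi
    obtain ⟨i, rfl⟩ : ∃ j, i = j + 1 := ⟨i - 1, by omega⟩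
    have hT' : F = 0 ∨ sb w T F ≠ 0 := by
      rcases hT with h | h
      · exact Or.inl h
      · refine Or.inr fun h0 => h ?_
        rw [Finset.insert_eq, ← sb_sb, h0, map_zero]
    rw [IT_insert]
    exact div_step (IT F w T) (X k - C (w k)) (nzd F w T k hk hT) (D i) (D (i + 1)) (D (i + 1 + 1))
      (fun a b => (le_sup_left : Ideal.span {F} ≤ IT F w T) (hc i (by omega) (by omega) a b))
      (ih hT' i (by omega) (by omega)) (ih hT' (i + 1) (by omega) hit)

end Pool.Agent.Helper1.BP
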