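import Pool.Agent.Helper1.BP.DivAll
import Pool.Agent.Helper21.BPA.Defs

/-!
PROJECT BP (MP_1cfd37_ag), block A, module BP-A1.13 (stub by helper1): exactness of the fibre complex at a regular point of `F = 0`.

Proof. `T = Finset.univ.erase x`, `card T = card σ - 1`. `F' = sb w T F` satisfies `eval w F' = eval w F = 0` and `eval w (pderiv x F') = eval w (pderiv x F) <> 0` (`sb w T` commutes with `pderiv x` because `x ∉ T`:
both `pderiv x ∘ sb` and `sb ∘ pderiv x` are derivations along `sb`, check on generators, or induction on `F`), so `F' <> 0` and `div_all` applies: `ExMod (IT F w T) (D i) (D (i+1))` for `s + (card σ - 1) <= i < t`.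
`F'` is fixed by `sb w T` (`sb_sb`) and `F' = F' - sb w {x} F' = (X x - C (w x)) * g` (`sb_sub`; `sb w {x} F' = sb w univ F = C (eval w F) = 0`), and `eval w (pderiv x F') = eval w g`, so `eval w g <> 0`.
Let `v0 : Fin (rk (i+1)) → K` be in the kernel of `(D i).map (eval w)`. Put `v = g * C v0`. Each entry of `(D i).mulVec v` is `g * h`, `h = sum_b (D i)_(a,b) C (v0 b)`, `eval w h = 0`; so `h` is in
`span {X_i - C w_i : all i}` (`sb_sub` with `T = univ`: `sb w univ h = C (eval w h)`), `h = h1 + (X x - C (w x)) h2`, `h1` in the span for `T`; `g h = g h1 + F' h2 ∈ IT F w T` (`F' ∈ IT` because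
`F - F'` is in the span for `T`). So there is `u` with `v - D (i+1) u ∈ IT F w T`; elements of `IT` vanish at `w`; evaluate: `(eval w g) v0 = D(i+1)(w) u(w)`.
The converse inclusion: `hc` and `eval w F = 0`.
-/

set_option autoImplicit false

namespace Pool.Agent.Helper1.BP

open MvPolynomial Pool.Agent.Helper21.BPA

private theorem sbX' {σ K : Type} [DecidableEq σ] [Field K] (w : σ → K) (T : Finset σ) (i : σ) :
    sb w T (X i) = if i ∈ T then C (w i) else X i := by
  rw [sb, aeval_X]

private theorem sbC' {σ K : Type} [DecidableEq σ] [Field K] (w : σ → K) (T : Finset σ) (a : K) :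
    sb w T (C a) = C a := by
  rw [sb, aeval_C]
  rfl

private theorem pderiv_sb {σ K : Type} [DecidableEq σ] [Field K] (w : σ → K) (T : Finset σ) (x : σ)
    (hxT : x ∉ T) (F : MvPolynomial σ K) : pderiv x (sb w T F) = sb w T (pderiv x F) := by
  induction F using MvPolynomial.induction_on with
  | C a => rw [sbC', pderiv_C, map_zero]
  | add p q hp hq => rw [map_add, map_add, map_add, map_add, hp, hq]
  | mul_X p i hp =>
    have hXi : pderiv x (sb w T (X i)) = sb w T (pderiv x (X i)) := by
      rw [sbX']
      by_cases hi : i ∈ T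
      · have hne : i ≠ x := fun h => hxT (h ▸ hi)
        rw [if_pos hi, pderiv_C, pderiv_X_of_ne hne, map_zero]
      · rw [if_neg hi]
        by_cases h : i = x
        · subst h
          rw [pderiv_X_self, map_one]
        · rw [pderiv_X_of_ne h, map_zero]
    rw [map_mul, pderiv_mul, pderiv_mul, map_add, map_mul, map_mul, hp, hXi]

private theorem sb_univ {σ K : Type} [Fintype σ] [DecidableEq σ] [Field K] (w : σ → K) (g : MvPolynomial σ K) :
    sb w Finset.univ g = C (eval w g) := by
  induction g using MvPolynomial.induction_on with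
  | C a => rw [sbC', eval_C]
  | add p q hp hq => rw [map_add, map_add, hp, hq, C_add]
  | mul_X p i hp => rw [map_mul, map_mul, hp, sbX', if_pos (Finset.mem_univ i), eval_X, C_mul]

/-- If the value at `w` is `0` then substituting all variables but `x` leaves a multiple of `X x - C (w x)`. -/
private theorem sb_mul {σ K : Type} [Fintype σ] [DecidableEq σ] [Field K] (w : σ → K) (x : σ)
    (g : MvPolynomial σ K) (hg : eval w g = 0) :
    ∃ c, sb w (Finset.univ.erase x) g = c * (X x - C (w x)) := by
  have h1 := sb_sub w {x} (sb w (Finset.univ.erase x) g)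
  have h2 : ({x} : Finset σ) ∪ Finset.univ.erase x = Finset.univ := by
    rw [← Finset.insert_eq, Finset.insert_erase (Finset.mem_univ x)]
  rw [sb_sb, h2, sb_univ, hg, C_0, sub_zero, Finset.coe_singleton, Set.image_singleton] at h1
  obtain ⟨c, hc⟩ := Ideal.mem_span_singleton'.mp h1
  exact ⟨c, hc.symm⟩

theorem ex_point {σ K : Type} [Fintype σ] [DecidableEq σ] [Field K] (F : MvPolynomial σ K) (w : σ → K)
    (hw : eval w F = 0) (x : σ) (hx : eval w (pderiv x F) ≠ 0) (rk : ℕ → ℕ)
    (D : (i : ℕ) → Matrix (Fin (rk i)) (Fin (rk (i + 1))) (MvPolynomial σ K)) (s t : ℕ)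
    (hc : ∀ i, s ≤ i → i < t → ∀ a b, (D i * D (i + 1)) a b ∈ Ideal.span {F})
    (he : ∀ i, s ≤ i → i < t → ExMod (Ideal.span {F}) (D i) (D (i + 1))) :
    ∀ i, s + (Fintype.card σ - 1) ≤ i → i < t →
      Ex2 ((D i).map (eval w)) ((D (i + 1)).map (eval w)) := by
  intro i hi hit
  set T : Finset σ := Finset.univ.erase x with hT
  have hxT : x ∉ T := Finset.notMem_erase x _
  have hcard : T.card = Fintype.card σ - 1 := by
    rw [hT, Finset.card_erase_of_mem (Finset.mem_univ x), Finset.card_univ]
  have hder : eval w (pderiv x (sb w T F)) ≠ 0 := by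
    rw [pderiv_sb w T x hxT, eval_sb]
    exact hx
  have hF' : sb w T F ≠ 0 := by
    intro h
    apply hder
    rw [h, map_zero, map_zero]
  have hlin : (X x - C (w x) : MvPolynomial σ K) ≠ 0 := by
    intro h0
    have h1 := congrArg (eval fun _ => w x + 1) h0
    rw [map_sub, eval_X, eval_C, map_zero] at h1
    have h2 : (1 : K) = 0 := by linear_combination h1
    exact one_ne_zero h2
  obtain ⟨g, hg⟩ := sb_mul w x F hw
  rw [← hT] at hg
  have hgw : eval w g ≠ 0 := by
    intro h
    apply hder
    rw [hg, pderiv_mul, map_add, map_mul, map_mul, h, zero_mul, add_zero, map_sub, eval_X, eval_C, sub_self,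
      mul_zero]
  have hsg : sb w T g = g := by
    have h1 : sb w T (sb w T F) = sb w T F := by
      rw [sb_sb, Finset.union_idempotent]
    have h2 : sb w T g * (X x - C (w x)) = g * (X x - C (w x)) := by
      rw [hg, map_mul, map_sub, sbX', sbC', if_neg hxT] at h1
      exact h1
    exact mul_right_cancel₀ hlin h2
  have hit0 : ∀ f ∈ IT F w T, eval w f = 0 := by
    intro f hf
    rw [mem_IT_iff] at hf
    obtain ⟨b, hb⟩ := Ideal.mem_span_singleton'.mp hf
    rw [← eval_sb w T f, ← hb, map_mul, eval_sb, hw, mul_zero]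
  have hE : ExMod (IT F w T) (D i) (D (i + 1)) :=
    div_all F w rk D s t hc he T (Or.inr hF') i (by rw [hcard]; exact hi) hit
  intro v0
  constructor
  · intro hv0
    have hker : ∀ a, (D i).mulVec (fun b => g * C (v0 b)) a ∈ IT F w T := by
      intro a
      have h1 : (D i).mulVec (fun b => g * C (v0 b)) a = g * (D i).mulVec (fun b => C (v0 b)) a := by
        rw [Matrix.mulVec, Matrix.mulVec, dotProduct, dotProduct, Finset.mul_sum]
        exact Finset.sum_congr rfl fun b _ => by ring
      have h2 : eval w ((D i).mulVec (fun b => C (v0 b)) a) = 0 := by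
        rw [RingHom.map_mulVec]
        have h3 : (eval w ∘ fun b => C (v0 b)) = v0 := by
          funext b
          rw [Function.comp_apply, eval_C]
        rw [h3, hv0, Pi.zero_apply]
      obtain ⟨c, hc'⟩ := sb_mul w x _ h2
      rw [← hT] at hc'
      rw [h1, mem_IT_iff, map_mul, hsg, hc', hg]
      exact Ideal.mem_span_singleton'.mpr ⟨c, by ring⟩
    obtain ⟨u, hu⟩ := hE _ hker
    refine ⟨fun j => (eval w g)⁻¹ * eval w (u j), ?_⟩
    funext j
    have h4 := hit0 _ (hu j)
    rw [map_sub, map_mul, eval_C, RingHom.map_mulVec, sub_eq_zero] at h4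
    have h5 : ((D (i + 1)).map (eval w)).mulVec (fun j => (eval w g)⁻¹ * eval w (u j)) j =
        (eval w g)⁻¹ * ((D (i + 1)).map (eval w)).mulVec (eval w ∘ u) j := by
      rw [Matrix.mulVec, Matrix.mulVec, dotProduct, dotProduct, Finset.mul_sum]
      exact Finset.sum_congr rfl fun b _ => by rw [Function.comp_apply]; ring
    rw [h5, ← h4, ← mul_assoc, inv_mul_cancel₀ hgw, one_mul]
  · rintro ⟨u, hu⟩
    rw [← hu, Matrix.mulVec_mulVec, ← Matrix.map_mul]
    have hz : (D i * D (i + 1)).map (eval w) = 0 := by
      ext a b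
      rw [Matrix.map_apply, Matrix.zero_apply]
      obtain ⟨c, hc'⟩ := Ideal.mem_span_singleton'.mp (hc i (by omega) hit a b)
      rw [← hc', map_mul, hw, mul_zero]
    rw [hz, Matrix.zero_mulVec]

end Pool.Agent.Helper1.BP
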