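import Pool.Agent.Helper1.BP.DivAll

/-!
PROJECT BP (MP_1cfd37_ag), block A, module BP-A1.15 (stub by helper1): Hilbert's syzygy theorem for minimal complexes.

Proof. `div_all` with `F = 0`, `w = 0`, `T = univ`, `t` large (`i + 1`): `hc`, `he` translate (`span {0} = ⊥`, `Ideal.mem_span_singleton`, `zero_dvd_iff`; `sub_eq_zero`). So for `i >= s + card ι`:
`ExMod (IT 0 0 univ) (D i) (D (i+1))`. `IT 0 0 univ` = polynomials with constant coefficient `0` (we need: `coeff 0 g = 0 → g ∈ IT` (`sb_sub` / `mem_IT_iff`: `sb 0 univ g = C (coeff 0 g)`), and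
`g ∈ IT → coeff 0 g = 0` (`eval 0`)). If `rk (i+1) <> 0` take `j : Fin (rk (i+1))`, `v = Pi.single j 1`: `(D i).mulVec v` is a column of `D i`, constant coefficients `0` by `hm`; so there is `u`
with `1 - ((D (i+1)).mulVec u) j ∈ IT`, constant coefficient `1 - 0 = 0` (entries of `D (i+1)` have constant coefficient `0`, `hm`): contradiction.
-/

set_option autoImplicit false

namespace Pool.Agent.Helper1.BP

open MvPolynomial

private theorem mem_IT_zero {ι K : Type} [Fintype ι] [DecidableEq ι] [Field K] (g : MvPolynomial ι K) :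
    g ∈ IT (0 : MvPolynomial ι K) (0 : ι → K) Finset.univ ↔ constantCoeff g = 0 := by
  rw [mem_IT_iff, map_zero, Ideal.mem_span_singleton, zero_dvd_iff]
  have h1 : sb (0 : ι → K) Finset.univ g = C (constantCoeff g) := by
    unfold sb
    have h2 : (fun i => if i ∈ (Finset.univ : Finset ι) then C ((0 : ι → K) i) else X i) =
        (0 : ι → MvPolynomial ι K) := by
      funext i
      simp
    rw [h2, aeval_zero]
    rfl
  rw [h1]
  constructor
  · intro h
    exact (C_eq_zero).mp h
  · intro h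
    rw [h, map_zero]

theorem hilb_vanish {ι K : Type} [Fintype ι] [DecidableEq ι] [Field K] (rk : ℕ → ℕ)
    (D : (i : ℕ) → Matrix (Fin (rk i)) (Fin (rk (i + 1))) (MvPolynomial ι K)) (s : ℕ)
    (hc : ∀ i, s ≤ i → D i * D (i + 1) = 0)
    (he : ∀ i, s ≤ i → ∀ v, (D i).mulVec v = 0 → ∃ u, (D (i + 1)).mulVec u = v)
    (hm : ∀ i, s + 2 ≤ i → ∀ a b, coeff 0 (D i a b) = 0) :
    ∀ i, s + Fintype.card ι + 2 ≤ i → rk (i + 1) = 0 := by
  intro i hi
  by_contra hr
  have hpos : 0 < rk (i + 1) := Nat.pos_of_ne_zero hr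
  have h0 : ∀ g : MvPolynomial ι K, g ∈ Ideal.span {(0 : MvPolynomial ι K)} ↔ g = 0 := by
    intro g
    rw [Ideal.mem_span_singleton, zero_dvd_iff]
  have hex := div_all (0 : MvPolynomial ι K) (0 : ι → K) rk D s (i + 1)
    (fun j hj _ a b => by
      rw [h0, hc j hj]
      rfl)
    (fun j hj _ v hv => by
      have hv' : (D j).mulVec v = 0 := by
        funext a
        exact (h0 _).mp (hv a)
      obtain ⟨u, hu⟩ := he j hj v hv'
      refine ⟨u, fun b => ?_⟩
      rw [h0, hu, sub_self])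
    Finset.univ (Or.inl rfl) i (by rw [Finset.card_univ]; omega) (Nat.lt_succ_self i)
  have hcc : ∀ j, s + 2 ≤ j → ∀ a b, constantCoeff (D j a b) = 0 := by
    intro j hj a b
    rw [constantCoeff_eq]
    exact hm j hj a b
  let j0 : Fin (rk (i + 1)) := ⟨0, hpos⟩
  obtain ⟨u, hu⟩ := hex (Pi.single j0 1) (fun a => by
    rw [mem_IT_zero]
    have h1 : (D i).mulVec (Pi.single j0 1) a = D i a j0 := by
      rw [Matrix.mulVec_single_one]
      rfl
    rw [h1]
    exact hcc i (by omega) a j0)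
  have h2 := hu j0
  rw [mem_IT_zero, map_sub, Pi.single_eq_same, map_one] at h2
  have h3 : constantCoeff ((D (i + 1)).mulVec u j0) = 0 := by
    have h4 : (D (i + 1)).mulVec u j0 = ∑ b, D (i + 1) j0 b * u b := rfl
    rw [h4, map_sum]
    refine Finset.sum_eq_zero fun b _ => ?_
    rw [map_mul, hcc (i + 1) (by omega) j0 b, zero_mul]
  rw [h3, sub_zero] at h2
  exact one_ne_zero h2

end Pool.Agent.Helper1.BP
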