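import Pool.Agent.Helper1.BP.Cmp

/-!
PROJECT BP (MP_1cfd37_ag), block A, module BP-A1.08 (stub by helper1): homogeneous generators of a graded submodule of a free module.

Proof. The module `Fin b → MvPolynomial σ K` is Noetherian (`σ` finite, `K` a field), so `Z = span {v_1, .., v_N}` (finite set; `Submodule.fg_def`).
By `exists_sum_cmp` (maximum of the finitely many `D`) every `v_k` is the finite sum over `d < D` of the vectors `v_(k,d) = (cmp w (e j) d (v_k j))_j`, which lie in `Z` by `hZ`, and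
`v_(k,d)` is homogeneous of degree `d`: `WH w (e j) d` (`wh_cmp`). So the columns `v_(k,d)`, `k < N`, `d < D` generate `Z`. Index them by `Fin c` through
`Fintype.equivFin` (or `finProdFinEquiv`), `db = d`. `Q.mulVec u = sum_l u_l Q_l`: the range of `Q.mulVec` is the span of the columns (`Matrix.range_mulVecLin`, `Matrix.mulVec_eq_sum`, or directly
`Submodule.mem_span_range_iff_exists_fun`).
-/

set_option autoImplicit false

namespace Pool.Agent.Helper1.BP

open MvPolynomial Pool.Agent.Helper21.BPA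

theorem homGen {σ K : Type} [Finite σ] [Field K] (w : σ → ℕ) {b : ℕ} (e : Fin b → ℕ)
    (Z : Submodule (MvPolynomial σ K) (Fin b → MvPolynomial σ K))
    (hZ : ∀ v ∈ Z, ∀ d, (fun j => cmp w (e j) d (v j)) ∈ Z) :
    ∃ (c : ℕ) (db : Fin c → ℕ) (Q : Matrix (Fin b) (Fin c) (MvPolynomial σ K)),
      (∀ j l, WH w (e j) (db l) (Q j l)) ∧ ∀ v, v ∈ Z ↔ ∃ u : Fin c → MvPolynomial σ K, Q.mulVec u = v := by
  classical
  obtain ⟨S, hS⟩ := (isNoetherian_def.1 (inferInstance : IsNoetherian (MvPolynomial σ K)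
    (Fin b → MvPolynomial σ K))) Z
  choose D hD using fun (v : Fin b → MvPolynomial σ K) (j : Fin b) => exists_sum_cmp w (e j) (v j)
  let N : ℕ := S.sup fun v => Finset.univ.sup fun j => D v j
  have hN : ∀ v ∈ S, ∀ j, D v j ≤ N := by
    intro v hv j
    exact (Finset.le_sup (f := fun j => D v j) (Finset.mem_univ j)).trans
      (Finset.le_sup (f := fun v => Finset.univ.sup fun j => D v j) hv)
  let ε : Fin (Fintype.card ({v // v ∈ S} × Fin N)) ≃ {v // v ∈ S} × Fin N := (Fintype.equivFin _).symm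
  let Q : Matrix (Fin b) (Fin (Fintype.card ({v // v ∈ S} × Fin N))) (MvPolynomial σ K) :=
    Matrix.of fun j l => cmp w (e j) ((ε l).2 : ℕ) ((ε l).1.1 j)
  refine ⟨_, fun l => ((ε l).2 : ℕ), Q, fun j l => wh_cmp _ _ _ _, ?_⟩
  have hcol : ∀ l, Q.col l = fun j => cmp w (e j) ((ε l).2 : ℕ) ((ε l).1.1 j) := fun l => rfl
  have hmemS : ∀ v ∈ S, v ∈ Z := fun v hv => hS ▸ Submodule.subset_span hv
  have hrange : LinearMap.range Q.mulVecLin = Z := by
    rw [Matrix.range_mulVecLin]
    apply le_antisymm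
    · rw [Submodule.span_le]
      rintro _ ⟨l, rfl⟩
      rw [hcol]
      exact hZ _ (hmemS _ (ε l).1.2) _
    · rw [← hS, Submodule.span_le]
      intro v hv
      have h1 : v = ∑ d ∈ Finset.range N, fun j => cmp w (e j) d (v j) := by
        funext j
        rw [Finset.sum_apply]
        exact (hD v j N (hN v hv j)).symm
      rw [h1]
      refine Submodule.sum_mem _ fun d hd => ?_
      refine Submodule.subset_span ⟨ε.symm (⟨v, hv⟩, ⟨d, Finset.mem_range.1 hd⟩), ?_⟩
      rw [hcol, Equiv.apply_symm_apply]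
  intro v
  rw [← hrange, LinearMap.mem_range]
  rfl

end Pool.Agent.Helper1.BP
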