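import Mathlib

/-!
PROJECT BP (MP_1cfd37_ag), block A, module BP-A1.22 (stub by helper1): multiplication by `f ∈ J` is homotopic to zero on the resolution modulo `I = (F)`.

Proof. Write `A ≡ B` for entrywise congruence modulo `I`. `rk 0 = 1`. `h 0`: `f ∈ J`: `f = g + sum_b M 0 _ b * c_b`, `g ∈ I` (`hJ`: `Ideal.span` of `I`-generators and the entries, `Fin (rk 0)` has one element); `h 0 = (c_b)_b` as a
`rk 1 x rk 0` matrix. Then `f • 1 - M 0 * h 0 ≡ 0`.
Inductive claim: for `k <= n` there are `h 0, .., h k` with the relations for all `i < k`. Step (`k < n`): let `N = f • 1 - h k * M k : rk (k+1) x rk (k+1)`. Then `M k * N ≡ 0`: for `k = 0`: `M 0 (f - h 0 M 0) = (f - M 0 h 0) M 0 ≡ 0`;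
for `k = k' + 1`: `M k N = f M k - (M k h k) M k` and `M k h k ≡ f - h k' M k'` so `M k N ≡ h k' M k' M k ≡ 0` (`hc`). Every column of `N` is a syzygy of `M k` mod `I`, by `he` it is `≡ M (k+1)` times a vector: `N ≡ M (k+1) * h (k+1)`.
Dependent sequences: prove by induction on `k` the statement `∃ h : (i : ℕ) → Matrix .., (relation 0) ∧ ∀ i < k, relation i` (replace `h` by `Function.update h (k+1) ..`), then take `k = n`.
-/

set_option autoImplicit false

namespace Pool.Agent.Helper1.BP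

private theorem row_mem {S : Type} [CommRing S] {r c : ℕ} (hr : r = 1) (A : Matrix (Fin r) (Fin c) S) (f : S)
    (hf : f ∈ Ideal.span {f | ∃ a b, f = A a b}) : ∃ u : Fin c → S, ∀ a, A.mulVec u a = f := by
  subst hr
  induction hf using Submodule.span_induction with
  | mem x hx =>
    obtain ⟨a, b, rfl⟩ := hx
    refine ⟨Pi.single b 1, fun a' => ?_⟩
    rw [Subsingleton.elim a' a]
    simp [Matrix.mulVec_single]
  | zero => exact ⟨0, fun a => by simp⟩
  | add x y _ _ hx hy =>
    obtain ⟨u, hu⟩ := hx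
    obtain ⟨v, hv⟩ := hy
    exact ⟨u + v, fun a => by rw [Matrix.mulVec_add, Pi.add_apply, hu, hv]⟩
  | smul s x _ hx =>
    obtain ⟨u, hu⟩ := hx
    exact ⟨s • u, fun a => by rw [Matrix.mulVec_smul, Pi.smul_apply, hu]⟩

private theorem mul_mem_l {S : Type} [CommRing S] (I : Ideal S) {a b c : ℕ} (A : Matrix (Fin a) (Fin b) S)
    (B : Matrix (Fin b) (Fin c) S) (hB : ∀ i j, B i j ∈ I) (i : Fin a) (j : Fin c) : (A * B) i j ∈ I := by
  rw [Matrix.mul_apply]
  exact Ideal.sum_mem _ fun k _ => Ideal.mul_mem_left _ _ (hB k j)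

private theorem mul_mem_r {S : Type} [CommRing S] (I : Ideal S) {a b c : ℕ} (A : Matrix (Fin a) (Fin b) S)
    (B : Matrix (Fin b) (Fin c) S) (hA : ∀ i j, A i j ∈ I) (i : Fin a) (j : Fin c) : (A * B) i j ∈ I := by
  rw [Matrix.mul_apply]
  exact Ideal.sum_mem _ fun k _ => Ideal.mul_mem_right _ _ (hA i k)

/-- Columnwise lifting. -/
private theorem lift_cols {S : Type} [CommRing S] (I : Ideal S) {a b c d : ℕ} (A : Matrix (Fin a) (Fin b) S)
    (B : Matrix (Fin b) (Fin c) S)
    (he : ∀ v : Fin b → S, (∀ i, A.mulVec v i ∈ I) → ∃ u : Fin c → S, ∀ j, v j - B.mulVec u j ∈ I)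
    (N : Matrix (Fin b) (Fin d) S) (hN : ∀ i j, (A * N) i j ∈ I) :
    ∃ U : Matrix (Fin c) (Fin d) S, ∀ i j, (N - B * U) i j ∈ I := by
  have h : ∀ l : Fin d, ∃ u : Fin c → S, ∀ j, N j l - B.mulVec u j ∈ I := fun l =>
    he (fun j => N j l) fun i => by
      have := hN i l
      rwa [Matrix.mul_apply] at this
  choose u hu using h
  refine ⟨Matrix.of fun j l => u l j, fun i j => ?_⟩
  exact hu j i

theorem htpy {S : Type} [CommRing S] (I J : Ideal S) (rk : ℕ → ℕ) (hrk : rk 0 = 1)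
    (M : (i : ℕ) → Matrix (Fin (rk i)) (Fin (rk (i + 1))) S) (n : ℕ)
    (hJ : J ≤ I ⊔ Ideal.span {f | ∃ a b, f = M 0 a b})
    (hc : ∀ i < n, ∀ a b, (M i * M (i + 1)) a b ∈ I)
    (he : ∀ i < n, ∀ v : Fin (rk (i + 1)) → S, (∀ a, (M i).mulVec v a ∈ I) →
      ∃ u : Fin (rk (i + 1 + 1)) → S, ∀ b, v b - (M (i + 1)).mulVec u b ∈ I) (f : S) (hf : f ∈ J) :
    ∃ h : (i : ℕ) → Matrix (Fin (rk (i + 1))) (Fin (rk i)) S,
      (∀ a b, (f • (1 : Matrix (Fin (rk 0)) (Fin (rk 0)) S) - M 0 * h 0) a b ∈ I) ∧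
      ∀ i < n, ∀ a b, (f • (1 : Matrix (Fin (rk (i + 1))) (Fin (rk (i + 1))) S) -
        (M (i + 1) * h (i + 1) + h i * M i)) a b ∈ I := by
  classical
  -- start
  have h0 : ∃ h0 : Matrix (Fin (rk 1)) (Fin (rk 0)) S,
      ∀ a b, (f • (1 : Matrix (Fin (rk 0)) (Fin (rk 0)) S) - M 0 * h0) a b ∈ I := by
    obtain ⟨g, hg, k, hk, hgk⟩ := Submodule.mem_sup.1 (hJ hf)
    obtain ⟨u, hu⟩ := row_mem hrk (M 0) k hk
    refine ⟨Matrix.of fun j _ => u j, fun a b => ?_⟩
    have hab : a = b := by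
      have : Subsingleton (Fin (rk 0)) := by rw [hrk]; infer_instance
      exact Subsingleton.elim _ _
    subst hab
    have h1 : (M 0 * (Matrix.of fun j _ => u j : Matrix (Fin (rk 1)) (Fin (rk 0)) S)) a a = k := hu a
    rw [Matrix.sub_apply, h1, Matrix.smul_apply, Matrix.one_apply_eq, smul_eq_mul, mul_one, ← hgk,
      add_sub_cancel_right]
    exact hg
  suffices H : ∀ k ≤ n, ∃ h : (i : ℕ) → Matrix (Fin (rk (i + 1))) (Fin (rk i)) S,
      (∀ a b, (f • (1 : Matrix (Fin (rk 0)) (Fin (rk 0)) S) - M 0 * h 0) a b ∈ I) ∧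
      ∀ i < k, ∀ a b, (f • (1 : Matrix (Fin (rk (i + 1))) (Fin (rk (i + 1))) S) -
        (M (i + 1) * h (i + 1) + h i * M i)) a b ∈ I by
    exact H n le_rfl
  intro k
  induction k with
  | zero =>
    intro _
    obtain ⟨h0, hh⟩ := h0
    refine ⟨fun i => if hi : i = 0 then hi ▸ h0 else 0, ?_, fun i hi => absurd hi (Nat.not_lt_zero i)⟩
    simpa using hh
  | succ k ih =>
    intro hk
    obtain ⟨h, hh0, hh⟩ := ih (by omega)
    have hkn : k < n := by omega
    -- the defect
    have hN : ∀ a b, (M k * (f • (1 : Matrix (Fin (rk (k + 1))) (Fin (rk (k + 1))) S) - h k * M k)) a b ∈ I := by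
      cases k with
      | zero =>
        have e : M 0 * (f • (1 : Matrix (Fin (rk (0 + 1))) (Fin (rk (0 + 1))) S) - h 0 * M 0) =
            (f • (1 : Matrix (Fin (rk 0)) (Fin (rk 0)) S) - M 0 * h 0) * M 0 := by
          rw [Matrix.mul_sub, Matrix.sub_mul, Matrix.mul_smul, Matrix.smul_mul, Matrix.one_mul,
            Matrix.mul_one, Matrix.mul_assoc]
        rw [e]
        exact mul_mem_r I _ _ hh0
      | succ k =>
        have e : M (k + 1) * (f • (1 : Matrix (Fin (rk (k + 1 + 1))) (Fin (rk (k + 1 + 1))) S) -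
            h (k + 1) * M (k + 1)) =
            (f • (1 : Matrix (Fin (rk (k + 1))) (Fin (rk (k + 1))) S) -
              (M (k + 1) * h (k + 1) + h k * M k)) * M (k + 1) + h k * (M k * M (k + 1)) := by
          simp only [Matrix.mul_sub, Matrix.sub_mul, Matrix.add_mul, Matrix.mul_smul, Matrix.smul_mul,
            Matrix.one_mul, Matrix.mul_one, Matrix.mul_assoc]
          abel
        rw [e]
        intro a b
        rw [Matrix.add_apply]
        exact I.add_mem (mul_mem_r I _ _ (hh k (by omega)) a b)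
          (mul_mem_l I _ _ (hc k (by omega)) a b)
    obtain ⟨U, hU⟩ := lift_cols I (M k) (M (k + 1)) (he k hkn) _ hN
    refine ⟨Function.update h (k + 1) U, ?_, ?_⟩
    · rw [Function.update_of_ne (by omega)]
      exact hh0
    · intro i hi a b
      by_cases hik : i = k
      · subst hik
        rw [Function.update_self, Function.update_of_ne (by omega)]
        have := hU a b
        rw [sub_sub] at this
        rw [add_comm (M (i + 1) * U)]
        exact this
      · rw [Function.update_of_ne (by omega), Function.update_of_ne (by omega)]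
        exact hh i (by omega) a b

end Pool.Agent.Helper1.BP
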