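import Mathlib

/-!
PROJECT BP (MP_1cfd37_ag), block A, module BP-A1.04 (stub by helper1).

A polynomial `r` in `q` real variables with `|r(z)| <= C |z|^j` near `0` has no monomials of degree `< j`.

Proof. Let `r_d` = `homogeneousComponent d r`. Fix `u : Fin q → ℝ`. For small real `s`: `eval (s • u) r = sum_d s^d eval u (r_d)` (finite sum, `eval_smul` for homogeneous polynomials:
`IsHomogeneous.eval₂` or direct), and `|eval (s • u) r| <= C |s|^j |u|^j`. A one-variable polynomial `sum_d c_d s^d` which is `O(s^j)` at `0` has `c_d = 0` for `d < j`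
(smallest `d` with `c_d <> 0`: divide by `s^d`, let `s → 0`). So `eval u (r_d) = 0` for all `u` and `d < j`, hence `r_d = 0` (`MvPolynomial.funext`), and
`coeff m r = coeff m (r_(degree m)) = 0`.
-/

set_option autoImplicit false

namespace Pool.Agent.Helper1.BP

open MvPolynomial

private theorem poly_bigO (P : Polynomial ℝ) (j : ℕ) (Cst : ℝ)
    (h : ∀ᶠ s : ℝ in nhds 0, |P.eval s| ≤ Cst * |s| ^ j) (d : ℕ) (hd : d < j) : P.coeff d = 0 := by
  induction d using Nat.strong_induction_on with
  | _ d ih =>
    have hdvd : (Polynomial.X : Polynomial ℝ) ^ d ∣ P :=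
      Polynomial.X_pow_dvd_iff.2 fun e he => ih e he (he.trans hd)
    obtain ⟨Q, rfl⟩ := hdvd
    have hc : ((Polynomial.X : Polynomial ℝ) ^ d * Q).coeff d = Q.eval 0 := by
      have := Polynomial.coeff_X_pow_mul Q d 0
      rw [zero_add] at this
      rw [this, Polynomial.coeff_zero_eq_eval_zero]
    rw [hc]
    have h1 : ∀ᶠ s : ℝ in nhdsWithin 0 {0}ᶜ, |Q.eval s| ≤ Cst * |s| ^ (j - d) := by
      filter_upwards [h.filter_mono nhdsWithin_le_nhds, self_mem_nhdsWithin] with s hs hs0
      have hs0' : s ≠ 0 := hs0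
      rw [Polynomial.eval_mul, Polynomial.eval_pow, Polynomial.eval_X, abs_mul, abs_pow] at hs
      have hpos : 0 < |s| ^ d := pow_pos (abs_pos.2 hs0') d
      have hj : |s| ^ j = |s| ^ d * |s| ^ (j - d) := by
        rw [← pow_add]
        congr 1
        omega
      rw [hj] at hs
      have h2 : |s| ^ d * |Q.eval s| ≤ |s| ^ d * (Cst * |s| ^ (j - d)) := by
        calc |s| ^ d * |Q.eval s| ≤ Cst * (|s| ^ d * |s| ^ (j - d)) := hs
          _ = |s| ^ d * (Cst * |s| ^ (j - d)) := by ring
      exact le_of_mul_le_mul_left h2 hpos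
    have h3 : Filter.Tendsto (fun s : ℝ => |Q.eval s|) (nhdsWithin 0 {0}ᶜ) (nhds |Q.eval 0|) := by
      have : Continuous fun s : ℝ => |Q.eval s| := Q.continuous.abs
      exact (this.tendsto 0).mono_left nhdsWithin_le_nhds
    have h4 : Filter.Tendsto (fun s : ℝ => Cst * |s| ^ (j - d)) (nhdsWithin 0 {0}ᶜ) (nhds 0) := by
      have hcont : Continuous fun s : ℝ => Cst * |s| ^ (j - d) := by fun_prop
      have := hcont.tendsto 0
      have hz : Cst * |(0 : ℝ)| ^ (j - d) = 0 := by
        rw [abs_zero, zero_pow (by omega), mul_zero]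
      rw [hz] at this
      exact this.mono_left nhdsWithin_le_nhds
    have h5 := le_of_tendsto_of_tendsto h3 h4 h1
    exact abs_eq_zero.1 (le_antisymm h5 (abs_nonneg _))

theorem coeff_zero_of_bigO {q : ℕ} (r : MvPolynomial (Fin q) ℝ) (j : ℕ) (Cst : ℝ)
    (h : ∀ᶠ z : Fin q → ℝ in nhds 0, |eval z r| ≤ Cst * ‖z‖ ^ j) (m : Fin q →₀ ℕ) (hm : m.degree < j) :
    coeff m r = 0 := by
  classical
  have key : ∀ u : Fin q → ℝ, eval u (homogeneousComponent m.degree r) = 0 := by
    intro u
    let P : Polynomial ℝ := ∑ n ∈ r.support, Polynomial.C (coeff n r * ∏ i, u i ^ n i) * Polynomial.X ^ n.degree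
    have hev : ∀ s : ℝ, P.eval s = eval (s • u) r := by
      intro s
      rw [eval_eq']
      simp only [P, Polynomial.eval_finset_sum, Polynomial.eval_mul, Polynomial.eval_C, Polynomial.eval_pow,
        Polynomial.eval_X]
      refine Finset.sum_congr rfl fun n _ => ?_
      have : ∏ i, (s • u) i ^ n i = s ^ n.degree * ∏ i, u i ^ n i := by
        simp only [Pi.smul_apply, smul_eq_mul, mul_pow]
        rw [Finset.prod_mul_distrib, Finset.prod_pow_eq_pow_sum, Finsupp.degree_eq_sum]
      rw [this]
      ring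
    have hcoe : P.coeff m.degree = eval u (homogeneousComponent m.degree r) := by
      rw [homogeneousComponent_apply]
      simp only [P, Polynomial.finset_sum_coeff, Polynomial.coeff_C_mul, Polynomial.coeff_X_pow]
      rw [map_sum, Finset.sum_filter]
      refine Finset.sum_congr rfl fun n _ => ?_
      by_cases hn : n.degree = m.degree
      · rw [if_pos hn.symm, if_pos hn, mul_one, eval_monomial]
        congr 1
        rw [Finsupp.prod_fintype]
        intro i
        exact pow_zero _
      · rw [if_neg fun h => hn h.symm, if_neg hn, mul_zero]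
    rw [← hcoe]
    refine poly_bigO P j (Cst * ‖u‖ ^ j) ?_ m.degree hm
    have ht : Filter.Tendsto (fun s : ℝ => s • u) (nhds 0) (nhds 0) := by
      have : Continuous fun s : ℝ => s • u := by fun_prop
      have h0 := this.tendsto 0
      rwa [zero_smul] at h0
    filter_upwards [ht.eventually h] with s hs
    rw [hev s]
    calc |eval (s • u) r| ≤ Cst * ‖s • u‖ ^ j := hs
      _ = Cst * ‖u‖ ^ j * |s| ^ j := by
        rw [norm_smul, Real.norm_eq_abs, mul_pow]
        ring
  have hz : homogeneousComponent m.degree r = 0 := by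
    refine MvPolynomial.funext fun u => ?_
    rw [key u, map_zero]
  have h1 := coeff_homogeneousComponent m.degree r m
  rw [if_pos rfl, hz, coeff_zero] at h1
  exact h1.symm

end Pool.Agent.Helper1.BP
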