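import Mathlib

/-!
PROJECT BP (MP_1cfd37_ag), block A, module BP-A1.02 (stub by helper1).

Completion of the equations `a` by linear forms `ell` to a system of local coordinates at `w`, and
`m ≤ (a) + (ell) + m^2` for the maximal ideal `m` of the point `w`.

`linf w c = sum_x c_x (X_x - w_x)`.

Proof of `exists_coord`: the covectors `u_i = (x ↦ eval w (pderiv x (a i)))` in `σ → ℝ` are linearly independent; extend them to a basis
(`Basis.sumExtend` or `exists_linearIndependent_pair...`); `β` = index type of the added vectors (a subtype of a finite basis, or `Fin q` after reindexing).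

Proof of `max_le`: let `B : Basis (α ⊕ β) ℝ (σ → ℝ)` be the basis of covectors. The covector of the coordinate `x` (that is `Pi.single x 1`) is a combination
`sum_i A_i u_i + sum_b C_b c_b`, hence `X x - C (w x) = linf w (Pi.single x 1) = sum_i A_i linf w u_i + sum_b C_b linf w (c b)`. And
`a i - linf w u_i ∈ m^2` because `a i` vanishes at `w` (Taylor: `f - C (eval w f) - linf w (grad f) ∈ m^2` for every polynomial `f`;
induction on `f`: constants, `X x`, sums, and products: `fg - f(w) g(w) - f(w) dg - g(w) df = (f - f(w))(g - g(w)) + f(w)(g - g(w) - dg) + g(w)(f - f(w) - df)`).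
-/

set_option autoImplicit false

namespace Pool.Agent.Helper1.BP

open MvPolynomial

/-- The maximal ideal of a point. -/
noncomputable def ptIdeal {σ K : Type*} [CommRing K] (w : σ → K) : Ideal (MvPolynomial σ K) :=
  Ideal.span (Set.range fun x => (X x - C (w x) : MvPolynomial σ K))

/-- The affine linear form `sum_x c_x (X_x - w_x)`. -/
noncomputable def linf {σ K : Type*} [CommRing K] [Fintype σ] (w c : σ → K) : MvPolynomial σ K :=
  ∑ x, C (c x) * (X x - C (w x))

private theorem h86_linf_mem {σ K : Type*} [CommRing K] [Fintype σ] (w c : σ → K) : linf w c ∈ ptIdeal w := by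
  unfold linf ptIdeal
  refine Ideal.sum_mem _ fun x _ => Ideal.mul_mem_left _ _ (Ideal.subset_span ⟨x, rfl⟩)

private theorem h86_linf_add {σ K : Type*} [CommRing K] [Fintype σ] (w c d : σ → K) :
    linf w (c + d) = linf w c + linf w d := by
  unfold linf
  rw [← Finset.sum_add_distrib]
  refine Finset.sum_congr rfl fun x _ => ?_
  rw [Pi.add_apply, C_add, add_mul]

private theorem h86_linf_smul {σ K : Type*} [CommRing K] [Fintype σ] (w : σ → K) (r : K) (c : σ → K) :
    linf w (r • c) = C r * linf w c := by
  unfold linf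
  rw [Finset.mul_sum]
  refine Finset.sum_congr rfl fun x _ => ?_
  rw [Pi.smul_apply, smul_eq_mul, C_mul, mul_assoc]

private theorem h86_linf_zero {σ K : Type*} [CommRing K] [Fintype σ] (w : σ → K) : linf w (0 : σ → K) = 0 := by
  unfold linf
  refine Finset.sum_eq_zero fun x _ => ?_
  rw [Pi.zero_apply, C_0, zero_mul]

private theorem h86_linf_single {σ K : Type*} [CommRing K] [Fintype σ] [DecidableEq σ] (w : σ → K) (x : σ) :
    linf w (Pi.single x 1) = X x - C (w x) := by
  unfold linf
  rw [Finset.sum_eq_single x]
  · rw [Pi.single_eq_same, C_1, one_mul]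
  · intro y _ hy
    rw [Pi.single_eq_of_ne hy, C_0, zero_mul]
  · intro h
    exact absurd (Finset.mem_univ x) h

theorem taylor_one {σ K : Type*} [Field K] [Fintype σ] [DecidableEq σ] (w : σ → K) (f : MvPolynomial σ K) :
    f - C (eval w f) - linf w (fun x => eval w (pderiv x f)) ∈ ptIdeal w ^ 2 := by
  induction f using MvPolynomial.induction_on with
  | C a =>
    have h : (fun x => eval w (pderiv x (C a : MvPolynomial σ K))) = 0 := by
      funext x
      rw [pderiv_C, map_zero, Pi.zero_apply]
    rw [h, h86_linf_zero, eval_C, sub_self, sub_zero]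
    exact Ideal.zero_mem _
  | add p q hp hq =>
    have h : (fun x => eval w (pderiv x (p + q))) =
        (fun x => eval w (pderiv x p)) + (fun x => eval w (pderiv x q)) := by
      funext x
      rw [map_add, map_add, Pi.add_apply]
    rw [h, h86_linf_add, map_add, C_add]
    have e : p + q - (C (eval w p) + C (eval w q)) -
        (linf w (fun x => eval w (pderiv x p)) + linf w (fun x => eval w (pderiv x q))) =
        (p - C (eval w p) - linf w (fun x => eval w (pderiv x p))) +
        (q - C (eval w q) - linf w (fun x => eval w (pderiv x q))) := by ring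
    rw [e]
    exact Ideal.add_mem _ hp hq
  | mul_X p n hp =>
    have h : (fun x => eval w (pderiv x (p * X n))) =
        w n • (fun x => eval w (pderiv x p)) + eval w p • (Pi.single n 1 : σ → K) := by
      funext x
      rw [pderiv_mul, map_add, map_mul, map_mul, eval_X, pderiv_X, Pi.add_apply, Pi.smul_apply, Pi.smul_apply,
        smul_eq_mul, smul_eq_mul, mul_comm (w n)]
      congr 2
      by_cases hx : x = n
      · subst hx
        rw [Pi.single_eq_same, Pi.single_eq_same, map_one]
      · rw [Pi.single_eq_of_ne (Ne.symm hx), Pi.single_eq_of_ne hx, map_zero]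
    have hm : p - C (eval w p) ∈ ptIdeal w := by
      have h1 : p - C (eval w p) - linf w (fun x => eval w (pderiv x p)) ∈ ptIdeal w :=
        Ideal.pow_le_self (two_ne_zero) hp
      have h2 := Ideal.add_mem _ h1 (h86_linf_mem w (fun x => eval w (pderiv x p)))
      rwa [sub_add_cancel] at h2
    have hX : (X n - C (w n) : MvPolynomial σ K) ∈ ptIdeal w := Ideal.subset_span ⟨n, rfl⟩
    have e : p * X n - C (eval w (p * X n)) - linf w (fun x => eval w (pderiv x (p * X n))) =
        (p - C (eval w p)) * (X n - C (w n)) +
          C (w n) * (p - C (eval w p) - linf w (fun x => eval w (pderiv x p))) := by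
      rw [h, h86_linf_add, h86_linf_smul, h86_linf_smul, h86_linf_single, map_mul, eval_X, C_mul]
      ring
    rw [e]
    refine Ideal.add_mem _ ?_ (Ideal.mul_mem_left _ _ hp)
    rw [pow_two]
    exact Ideal.mul_mem_mul hm hX

theorem exists_coord {σ α : Type} [Fintype σ] [Fintype α] (u : α → σ → ℝ) (hu : LinearIndependent ℝ u) :
    ∃ (q : ℕ) (c : Fin q → σ → ℝ), LinearIndependent ℝ (Sum.elim u c) ∧
      Submodule.span ℝ (Set.range (Sum.elim u c)) = ⊤ := by
  obtain ⟨W', hW⟩ := Submodule.exists_isCompl (Submodule.span ℝ (Set.range u))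
  let bs := Module.finBasis ℝ ↥W'
  have hli : LinearIndependent ℝ (fun i => (bs i : σ → ℝ)) :=
    bs.linearIndependent.map' W'.subtype (Submodule.ker_subtype W')
  have hsp : Submodule.span ℝ (Set.range (fun i => (bs i : σ → ℝ))) = W' := by
    have h1 : Set.range (fun i => (bs i : σ → ℝ)) = W'.subtype '' (Set.range bs) := by
      rw [← Set.range_comp]
      rfl
    rw [h1, Submodule.span_image, bs.span_eq, Submodule.map_top, Submodule.range_subtype]
  refine ⟨Module.finrank ℝ ↥W', fun i => (bs i : σ → ℝ), ?_, ?_⟩
  · refine LinearIndependent.sum_type hu hli ?_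
    rw [hsp]
    exact hW.disjoint
  · rw [Set.Sum.elim_range, Submodule.span_union, hsp]
    exact hW.sup_eq_top

theorem max_le {σ α : Type} [Fintype σ] [DecidableEq σ] [Fintype α] (w : σ → ℝ) (a : α → MvPolynomial σ ℝ)
    (ha : ∀ i, eval w (a i) = 0) {q : ℕ} (c : Fin q → σ → ℝ)
    (hc : Submodule.span ℝ (Set.range (Sum.elim (fun i => fun x => eval w (pderiv x (a i))) c)) = ⊤) :
    ptIdeal w ≤ Ideal.span (Set.range a) ⊔ Ideal.span (Set.range fun b => linf w (c b)) ⊔ ptIdeal w ^ 2 := by
  have key : ∀ v : σ → ℝ, linf w v ∈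
      Ideal.span (Set.range a) ⊔ Ideal.span (Set.range fun b => linf w (c b)) ⊔ ptIdeal w ^ 2 := by
    intro v
    have hv : v ∈ Submodule.span ℝ (Set.range (Sum.elim (fun i => fun x => eval w (pderiv x (a i))) c)) := by
      rw [hc]
      exact Submodule.mem_top
    refine Submodule.span_induction (p := fun v _ => linf w v ∈
      Ideal.span (Set.range a) ⊔ Ideal.span (Set.range fun b => linf w (c b)) ⊔ ptIdeal w ^ 2) ?_ ?_ ?_ ?_ hv
    · rintro v ⟨i | b, rfl⟩
      · have h1 := taylor_one w (a i)
        rw [ha i, C_0, sub_zero] at h1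
        have h2 : linf w (fun x => eval w (pderiv x (a i))) =
            a i - (a i - linf w (fun x => eval w (pderiv x (a i)))) := by ring
        rw [Sum.elim_inl, h2]
        refine Ideal.sub_mem _ ?_ ?_
        · exact Ideal.mem_sup_left (Ideal.mem_sup_left (Ideal.subset_span ⟨i, rfl⟩))
        · exact Ideal.mem_sup_right h1
      · rw [Sum.elim_inr]
        exact Ideal.mem_sup_left (Ideal.mem_sup_right (Ideal.subset_span ⟨b, rfl⟩))
    · rw [h86_linf_zero]
      exact Ideal.zero_mem _
    · intro x y _ _ hx hy
      rw [h86_linf_add]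
      exact Ideal.add_mem _ hx hy
    · intro r x _ hx
      rw [h86_linf_smul]
      exact Ideal.mul_mem_left _ _ hx
  unfold ptIdeal at key ⊢
  rw [Ideal.span_le]
  rintro _ ⟨x, rfl⟩
  have h := key (Pi.single x 1)
  rw [h86_linf_single] at h
  exact h

end Pool.Agent.Helper1.BP
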