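import Mathlib

/-!
PROJECT BP (MP_1cfd37_ag), block A, module BP-A1.01 (stub by helper1).

Krull intersection in a Noetherian ring, elementwise form.

Proof. Work in the module `R ⧸ I` over `R` (finite, Noetherian ring). The class of `h` lies in `⨅ j, m ^ j • ⊤` because
`h ∈ I ⊔ m ^ j` for all `j`. Mathlib: `Ideal.mem_iInf_smul_pow_eq_bot_iff` gives `r : m` with `r • [h] = [h]`, that is `(1 - r) * h ∈ I`.
Take `δ = 1 - r`.
-/

set_option autoImplicit false

namespace Pool.Agent.Helper1.BP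

theorem krull_loc {R : Type*} [CommRing R] [IsNoetherianRing R] (I m : Ideal R) (h : R)
    (hh : ∀ j : ℕ, h ∈ I ⊔ m ^ j) : ∃ δ : R, 1 - δ ∈ m ∧ δ * h ∈ I := by
  have h1 : (Ideal.Quotient.mk I h) ∈ (⨅ j : ℕ, m ^ j • (⊤ : Submodule R (R ⧸ I)) : Submodule R (R ⧸ I)) := by
    rw [Submodule.mem_iInf]
    intro j
    obtain ⟨a, ha, b, hb, hab⟩ := Submodule.mem_sup.1 (hh j)
    have : Ideal.Quotient.mk I h = b • (1 : R ⧸ I) := by
      rw [← hab, map_add, Ideal.Quotient.eq_zero_iff_mem.2 ha, zero_add, Algebra.smul_def, mul_one]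
      rfl
    rw [this]
    exact Submodule.smul_mem_smul hb trivial
  rw [Ideal.mem_iInf_smul_pow_eq_bot_iff] at h1
  obtain ⟨r, hr⟩ := h1
  refine ⟨1 - r, by simp, ?_⟩
  rw [← Ideal.Quotient.eq_zero_iff_mem, map_mul, map_sub, map_one, sub_mul, one_mul, sub_eq_zero]
  have : (r : R) • Ideal.Quotient.mk I h = Ideal.Quotient.mk I h := hr
  rw [Algebra.smul_def] at this
  exact this.symm

end Pool.Agent.Helper1.BP
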