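import Pool.Agent.Helper1.BP.LocCoord

/-!
PROJECT BP (MP_1cfd37_ag), block A, modules BP-A1.05 (stub by helper1).

`exists_par`: parametrisation of the zero set of `a` near `w` by the linear coordinates `ell_b` (inverse function theorem).

Proof. `Φ : (σ → ℝ) → (α ⊕ Fin q → ℝ)`, `Φ x = Sum.elim (fun i => eval x (a i)) (fun b => eval x (linf w (c b)))`. It is smooth (`MvPolynomial` evaluation is `ContDiff`;
strict derivative at `w`: `v ↦ Sum.elim (fun i => sum_x eval w (pderiv x (a i)) v_x) (fun b => sum_x c_b(x) v_x)`), and this derivative is bijective, because its rows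
form a basis of `σ → ℝ` (`hli`, `hsp`). `Φ w = 0`. By `HasStrictFDerivAt.toOpenPartialHomeomorph` / `localInverse`: for `z` near `0` put `x z = localInverse (Sum.elim 0 z)`;
it is Lipschitz at `0` (the local inverse has a strict derivative at `Φ w`), so `‖x z - w‖ <= C ‖z‖`.

`pow_bound`: an element of `m^j` is `O(|x - w|^j)`: for `j = 1` the generators are, and use products (induction: `Submodule.pow_induction_on_left'` or
`Ideal.pow_succ`, `Submodule.mul_induction_on`); polynomials are bounded near `w`.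
-/

set_option autoImplicit false

namespace Pool.Agent.Helper1.BP

open MvPolynomial

theorem eval_linf_aux {σ : Type} [Fintype σ] (w c x : σ → ℝ) : eval x (linf w c) = ∑ y, c y * (x y - w y) := by
  rw [linf, map_sum]
  refine Finset.sum_congr rfl fun y _ => ?_
  rw [map_mul, map_sub, eval_C, eval_X, eval_C]

/-- The differential of a polynomial function. -/
theorem hasStrictFDerivAt_eval_aux {σ : Type} [Fintype σ] [DecidableEq σ] (w : σ → ℝ) (f : MvPolynomial σ ℝ) :
    HasStrictFDerivAt (fun x : σ → ℝ => eval x f)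
      (∑ y, eval w (pderiv y f) • (ContinuousLinearMap.proj y : (σ → ℝ) →L[ℝ] ℝ)) w := by
  induction f using MvPolynomial.induction_on with
  | C r =>
    have h := hasStrictFDerivAt_const (𝕜 := ℝ) r w
    simpa using h
  | add f g hf hg =>
    have h := hf.add hg
    have h1 : (∑ y, eval w (pderiv y (f + g)) • (ContinuousLinearMap.proj y : (σ → ℝ) →L[ℝ] ℝ)) =
        (∑ y, eval w (pderiv y f) • (ContinuousLinearMap.proj y : (σ → ℝ) →L[ℝ] ℝ)) +
          ∑ y, eval w (pderiv y g) • (ContinuousLinearMap.proj y : (σ → ℝ) →L[ℝ] ℝ) := by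
      rw [← Finset.sum_add_distrib]
      refine Finset.sum_congr rfl fun y _ => ?_
      rw [map_add, map_add, add_smul]
    rw [h1]
    have h2 : (fun x : σ → ℝ => eval x (f + g)) = (fun x => eval x f) + fun x => eval x g := by
      ext x
      simp
    rw [h2]
    exact h
  | mul_X f n hf =>
    have hp : HasStrictFDerivAt (fun x : σ → ℝ => x n) (ContinuousLinearMap.proj n : (σ → ℝ) →L[ℝ] ℝ) w :=
      (ContinuousLinearMap.proj n : (σ → ℝ) →L[ℝ] ℝ).hasStrictFDerivAt
    have h := hf.mul hp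
    have h1 : (∑ y, eval w (pderiv y (f * X n)) • (ContinuousLinearMap.proj y : (σ → ℝ) →L[ℝ] ℝ)) =
        eval w f • (ContinuousLinearMap.proj n : (σ → ℝ) →L[ℝ] ℝ) +
          w n • ∑ y, eval w (pderiv y f) • (ContinuousLinearMap.proj y : (σ → ℝ) →L[ℝ] ℝ) := by
      have h3 : ∀ y, eval w (pderiv y (f * X n)) • (ContinuousLinearMap.proj y : (σ → ℝ) →L[ℝ] ℝ) =
          (if y = n then eval w f • (ContinuousLinearMap.proj y : (σ → ℝ) →L[ℝ] ℝ) else 0) +
            w n • eval w (pderiv y f) • (ContinuousLinearMap.proj y : (σ → ℝ) →L[ℝ] ℝ) := by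
        intro y
        rw [Derivation.leibniz, smul_eq_mul, smul_eq_mul, map_add, map_mul, map_mul, eval_X, add_smul, pderiv_X,
          smul_smul]
        congr 1
        by_cases hy : y = n
        · subst hy
          simp
        · simp [Pi.single_apply, hy, Ne.symm hy]
      rw [Finset.sum_congr rfl fun y _ => h3 y, Finset.sum_add_distrib, Finset.sum_ite_eq' Finset.univ n,
        if_pos (Finset.mem_univ n), Finset.smul_sum]
    rw [h1]
    have h2 : (fun x : σ → ℝ => eval x (f * X n)) = (fun x => eval x f) * fun x => x n := by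
      ext x
      simp
    rw [h2]
    exact h

theorem exists_par {σ α : Type} [Fintype σ] [DecidableEq σ] [Fintype α] (w : σ → ℝ) (a : α → MvPolynomial σ ℝ)
    (ha : ∀ i, eval w (a i) = 0) {q : ℕ} (c : Fin q → σ → ℝ)
    (hli : LinearIndependent ℝ (Sum.elim (fun i => fun x => eval w (pderiv x (a i))) c))
    (hsp : Submodule.span ℝ (Set.range (Sum.elim (fun i => fun x => eval w (pderiv x (a i))) c)) = ⊤) :
    ∃ (x : (Fin q → ℝ) → σ → ℝ) (Cst : ℝ), ∀ᶠ z : Fin q → ℝ in nhds 0,
      (∀ i, eval (x z) (a i) = 0) ∧ (∀ b, eval (x z) (linf w (c b)) = z b) ∧ ‖x z - w‖ ≤ Cst * ‖z‖ := by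
  classical
  set R : α ⊕ Fin q → σ → ℝ := Sum.elim (fun i => fun x => eval w (pderiv x (a i))) c with hR
  let Φ : (σ → ℝ) → (α ⊕ Fin q → ℝ) := fun x => Sum.elim (fun i => eval x (a i)) (fun b => eval x (linf w (c b)))
  let Lr : α ⊕ Fin q → (σ → ℝ) →L[ℝ] ℝ := fun s => ∑ y, R s y • (ContinuousLinearMap.proj y : (σ → ℝ) →L[ℝ] ℝ)
  have hLr : ∀ s v, Lr s v = ∑ y, R s y * v y := by
    intro s v
    simp [Lr]
  let T : (σ → ℝ) →L[ℝ] (α ⊕ Fin q → ℝ) := ContinuousLinearMap.pi Lr
  have hT : ∀ v s, T v s = ∑ y, R s y * v y := fun v s => hLr s v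
  have hTi : Function.Injective T := by
    have h0 : ∀ v, T v = 0 → v = 0 := by
      intro v hv
      have h1 : ∀ u ∈ Submodule.span ℝ (Set.range R), ∑ y, u y * v y = 0 := by
        intro u hu
        induction hu using Submodule.span_induction with
        | mem u hu =>
          obtain ⟨s, rfl⟩ := hu
          rw [← hT, hv]
          rfl
        | zero => simp
        | add u u' _ _ h h' =>
          simp only [Pi.add_apply, add_mul, Finset.sum_add_distrib, h, h', add_zero]
        | smul r u _ h =>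
          simp only [Pi.smul_apply, smul_eq_mul, mul_assoc, ← Finset.mul_sum, h, mul_zero]
      have h2 : ∑ y, v y * v y = 0 := h1 v (by rw [hsp]; exact Submodule.mem_top)
      have h3 : ∀ y ∈ Finset.univ, v y * v y = 0 :=
        (Finset.sum_eq_zero_iff_of_nonneg fun y _ => mul_self_nonneg (v y)).1 h2
      ext y
      exact mul_self_eq_zero.1 (h3 y (Finset.mem_univ y))
    intro u v huv
    have := h0 (u - v) (by rw [map_sub, huv, sub_self])
    exact sub_eq_zero.1 this
  have hcard : Module.finrank ℝ (σ → ℝ) = Module.finrank ℝ (α ⊕ Fin q → ℝ) := by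
    have hb := Module.finrank_eq_card_basis (Module.Basis.mk hli (by rw [hsp]))
    rw [hb]
    simp
  let Θ : (σ → ℝ) ≃L[ℝ] (α ⊕ Fin q → ℝ) :=
    (LinearMap.linearEquivOfInjective (T : (σ → ℝ) →ₗ[ℝ] (α ⊕ Fin q → ℝ)) hTi hcard).toContinuousLinearEquiv
  have hΘ : (Θ : (σ → ℝ) →L[ℝ] (α ⊕ Fin q → ℝ)) = T := by
    ext v s
    rfl
  have hd : HasStrictFDerivAt Φ (Θ : (σ → ℝ) →L[ℝ] (α ⊕ Fin q → ℝ)) w := by
    rw [hΘ, hasStrictFDerivAt_pi']
    intro s
    have h1 : (ContinuousLinearMap.proj s).comp T = Lr s := by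
      ext v
      rfl
    rw [h1]
    rcases s with i | b
    · exact hasStrictFDerivAt_eval_aux w (a i)
    · have h2 : (fun x => Φ x (Sum.inr b)) = fun x => ∑ y, c b y * (x y - w y) := by
        ext x
        exact eval_linf_aux w (c b) x
      rw [h2]
      have h3 : ∀ y ∈ (Finset.univ : Finset σ), HasStrictFDerivAt (fun x : σ → ℝ => c b y * (x y - w y))
          (c b y • (ContinuousLinearMap.proj y : (σ → ℝ) →L[ℝ] ℝ)) w := by
        intro y _
        have h4 : HasStrictFDerivAt (fun x : σ → ℝ => x y) (ContinuousLinearMap.proj y : (σ → ℝ) →L[ℝ] ℝ) w :=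
          (ContinuousLinearMap.proj y : (σ → ℝ) →L[ℝ] ℝ).hasStrictFDerivAt
        exact (h4.sub_const (w y)).const_mul (c b y)
      exact HasStrictFDerivAt.fun_sum h3
  have hΦw : Φ w = 0 := by
    ext s
    rcases s with i | b
    · exact ha i
    · show eval w (linf w (c b)) = 0
      rw [eval_linf_aux]
      simp
  let ψ : (α ⊕ Fin q → ℝ) → σ → ℝ := hd.localInverse Φ Θ w
  have hψ0 : ψ 0 = w := by
    have h := hd.localInverse_apply_image
    rw [hΦw] at h
    exact h
  have hr : ∀ᶠ y in nhds 0, Φ (ψ y) = y := by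
    have h := hd.eventually_right_inverse
    rw [hΦw] at h
    exact h
  have hψd : HasStrictFDerivAt ψ (Θ.symm : (α ⊕ Fin q → ℝ) →L[ℝ] (σ → ℝ)) 0 := by
    have h := hd.to_localInverse
    rw [hΦw] at h
    exact h
  obtain ⟨C0, hC0⟩ := hψd.hasFDerivAt.isBigO_sub.bound
  let J : (Fin q → ℝ) → (α ⊕ Fin q → ℝ) := fun z => Sum.elim 0 z
  have hJc : Continuous J := by
    refine continuous_pi fun s => ?_
    rcases s with i | b
    · exact continuous_const
    · exact continuous_apply b
  have hJ0 : J 0 = 0 := by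
    ext s
    rcases s with i | b <;> rfl
  have hJt : Filter.Tendsto J (nhds 0) (nhds 0) := by
    have := hJc.tendsto 0
    rwa [hJ0] at this
  have hJn : ∀ z, ‖J z‖ ≤ ‖z‖ := by
    intro z
    rw [pi_norm_le_iff_of_nonneg (norm_nonneg z)]
    intro s
    rcases s with i | b
    · show ‖(0 : ℝ)‖ ≤ ‖z‖
      rw [norm_zero]
      exact norm_nonneg z
    · exact norm_le_pi_norm z b
  refine ⟨fun z => ψ (J z), |C0|, ?_⟩
  filter_upwards [hJt.eventually hr, hJt.eventually hC0] with z h1 h2
  refine ⟨fun i => ?_, fun b => ?_, ?_⟩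
  · exact congrFun h1 (Sum.inl i)
  · exact congrFun h1 (Sum.inr b)
  · rw [hψ0, sub_zero] at h2
    calc ‖ψ (J z) - w‖ ≤ C0 * ‖J z‖ := h2
      _ ≤ |C0| * ‖J z‖ := mul_le_mul_of_nonneg_right (le_abs_self C0) (norm_nonneg _)
      _ ≤ |C0| * ‖z‖ := mul_le_mul_of_nonneg_left (hJn z) (abs_nonneg C0)

theorem pow_isBigO_aux {σ : Type} [Fintype σ] (w : σ → ℝ) (j : ℕ) (g : MvPolynomial σ ℝ) (hg : g ∈ ptIdeal w ^ j) :
    (fun x : σ → ℝ => eval x g) =O[nhds w] fun x => ‖x - w‖ ^ j := by
  have hone : ∀ g : MvPolynomial σ ℝ, (fun x : σ → ℝ => eval x g) =O[nhds w] fun _ => (1 : ℝ) := fun g =>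
    (MvPolynomial.continuous_eval g).continuousAt.isBigO_one ℝ
  have hgen : ∀ b ∈ ptIdeal w, (fun x : σ → ℝ => eval x b) =O[nhds w] fun x => ‖x - w‖ := by
    intro b hb
    rw [ptIdeal] at hb
    induction hb using Submodule.span_induction with
    | mem u hu =>
      obtain ⟨y, rfl⟩ := hu
      refine Asymptotics.IsBigO.of_bound 1 (Filter.Eventually.of_forall fun x => ?_)
      simp only [map_sub, eval_X, eval_C, one_mul, norm_norm]
      exact norm_le_pi_norm (x - w) y
    | zero =>
      simp only [map_zero]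
      exact Asymptotics.isBigO_zero _ _
    | add u v _ _ hu hv =>
      simp only [map_add]
      exact hu.add hv
    | smul r u _ hu =>
      simp only [smul_eq_mul, map_mul]
      have := (hone r).mul hu
      simpa using this
  induction j generalizing g with
  | zero =>
    simp only [pow_zero]
    exact hone g
  | succ j ih =>
    rw [pow_succ] at hg
    refine Submodule.mul_induction_on hg (fun a ha b hb => ?_) fun u v hu hv => ?_
    · simp only [map_mul, pow_succ]
      exact (ih a ha).mul (hgen b hb)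
    · simp only [map_add]
      exact hu.add hv

theorem pow_bound {σ : Type} [Fintype σ] (w : σ → ℝ) (j : ℕ) (g : MvPolynomial σ ℝ) (hg : g ∈ ptIdeal w ^ j) :
    ∃ Cst : ℝ, 0 ≤ Cst ∧ ∀ᶠ x : σ → ℝ in nhds w, |eval x g| ≤ Cst * ‖x - w‖ ^ j := by
  obtain ⟨C0, hC, h⟩ := (pow_isBigO_aux w j g hg).exists_nonneg
  refine ⟨C0, hC, ?_⟩
  filter_upwards [h.bound] with x hx
  rwa [Real.norm_eq_abs, Real.norm_of_nonneg (pow_nonneg (norm_nonneg _) j)] at hx

end Pool.Agent.Helper1.BP
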