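import Pool.Agent.Helper1.BP.LocCoord

/-!
PROJECT BP (MP_1cfd37_ag), block A, module BP-A1.03 (stub by helper1).

Reduction to the free coordinates: modulo `(a) + m^j` every polynomial is a polynomial in the `ell_b`.

Proof. Put `I = (a)`, `m = ptIdeal w`, `P` = range of the algebra hom `aeval ell : MvPolynomial (Fin q) ℝ → MvPolynomial σ ℝ`. Claim (by induction on `j`):
every `h` is in `P + I + m^j`. `j = 0` trivial. Step: it is enough that every element of `m^j` lies in `P + I + m^(j+1)`. `m^j` is spanned additively by the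
products `g * y_1 * .. * y_j` with `y_k ∈ m`, `g` a polynomial (use `Submodule.pow_induction_on_left'` or an induction on `j` proving the stronger statement: for `h ∈ m^j` there is
`r` homogeneous of degree `j` with `h - aeval ell r ∈ I + m^(j+1)`): for `y ∈ m`, by `hm`, `y = i + sum_b g_b ell_b + n` with `i ∈ I`, `n ∈ m^2`, and `g_b = C (eval w g_b) + (element of m)`, so
`y = i + aeval ell (sum_b C (eval w g_b) X_b) + n'`, `n' ∈ m^2` (because `ell_b ∈ m`). If `h ∈ m^j`, `h - aeval ell r ∈ I + m^(j+1)` and `r` homogeneous of degree `j` then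
`y h - aeval ell (l r) = (y - aeval ell l) h + aeval ell l (h - aeval ell r) ∈ I + m^(j+2)`.
-/

set_option autoImplicit false

namespace Pool.Agent.Helper1.BP

open MvPolynomial

private theorem h52_linf_mem {σ : Type} [Fintype σ] (w c : σ → ℝ) : linf w c ∈ ptIdeal w := by
  unfold linf ptIdeal
  exact Ideal.sum_mem _ fun x _ => Ideal.mul_mem_left _ _ (Ideal.subset_span ⟨x, rfl⟩)

private theorem h52_sub_eval {σ : Type} [Fintype σ] (w : σ → ℝ) (f : MvPolynomial σ ℝ) :
    f - C (eval w f) ∈ ptIdeal w := by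
  classical
  have h1 := Ideal.pow_le_self two_ne_zero (taylor_one w f)
  have h2 := Ideal.add_mem _ h1 (h52_linf_mem w (fun x => eval w (pderiv x f)))
  rwa [sub_add_cancel] at h2

/-- The ideal of the origin in the polynomial ring in `q` variables. -/
private noncomputable abbrev h52_m0 (q : ℕ) : Ideal (MvPolynomial (Fin q) ℝ) :=
  Ideal.span (Set.range fun b => (X b : MvPolynomial (Fin q) ℝ))

private theorem h52_map {σ : Type} [Fintype σ] {q : ℕ} (w : σ → ℝ) (c : Fin q → σ → ℝ) (j : ℕ)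
    (r : MvPolynomial (Fin q) ℝ) (hr : r ∈ h52_m0 q ^ j) :
    aeval (fun b => linf w (c b)) r ∈ ptIdeal w ^ j := by
  have h1 : h52_m0 q ≤ (ptIdeal w).comap (aeval (fun b => linf w (c b)) : MvPolynomial (Fin q) ℝ →ₐ[ℝ] _) := by
    rw [Ideal.span_le]
    rintro _ ⟨b, rfl⟩
    change aeval (fun b => linf w (c b)) (X b : MvPolynomial (Fin q) ℝ) ∈ ptIdeal w
    rw [aeval_X]
    exact h52_linf_mem w (c b)
  have h2 := Ideal.pow_right_mono h1 j hr
  exact Ideal.le_comap_pow _ j h2

private theorem h52_one {σ : Type} [Fintype σ] {q : ℕ} (w : σ → ℝ) (I : Ideal (MvPolynomial σ ℝ))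
    (c : Fin q → σ → ℝ)
    (hm : ptIdeal w ≤ I ⊔ Ideal.span (Set.range fun b => linf w (c b)) ⊔ ptIdeal w ^ 2)
    (y : MvPolynomial σ ℝ) (hy : y ∈ ptIdeal w) :
    ∃ r ∈ h52_m0 q, y - aeval (fun b => linf w (c b)) r ∈ I ⊔ ptIdeal w ^ 2 := by
  obtain ⟨y1, hy1, n, hn, rfl⟩ := Submodule.mem_sup.1 (hm hy)
  obtain ⟨i, hi, s, hs, rfl⟩ := Submodule.mem_sup.1 hy1
  obtain ⟨g, rfl⟩ := Ideal.mem_span_range_iff_exists_fun.1 hs
  refine ⟨∑ b, C (eval w (g b)) * X b, ?_, ?_⟩
  · exact Ideal.sum_mem _ fun b _ => Ideal.mul_mem_left _ _ (Ideal.subset_span ⟨b, rfl⟩)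
  · have e : i + ∑ b, g b * linf w (c b) + n - aeval (fun b => linf w (c b))
        (∑ b, C (eval w (g b)) * X b : MvPolynomial (Fin q) ℝ) =
        i + (∑ b, (g b - C (eval w (g b))) * linf w (c b) + n) := by
      rw [map_sum]
      have e1 : ∀ b : Fin q, aeval (fun b => linf w (c b)) (C (eval w (g b)) * X b : MvPolynomial (Fin q) ℝ) =
          C (eval w (g b)) * linf w (c b) := by
        intro b
        rw [map_mul, aeval_X, aeval_C]
        rfl
      simp only [e1, sub_mul, Finset.sum_sub_distrib]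
      ring
    rw [e]
    refine Ideal.add_mem _ (Ideal.mem_sup_left hi) (Ideal.mem_sup_right (Ideal.add_mem _ ?_ hn))
    refine Ideal.sum_mem _ fun b _ => ?_
    rw [pow_two]
    exact Ideal.mul_mem_mul (h52_sub_eval w (g b)) (h52_linf_mem w (c b))

private theorem h52_pow {σ : Type} [Fintype σ] {q : ℕ} (w : σ → ℝ) (I : Ideal (MvPolynomial σ ℝ))
    (c : Fin q → σ → ℝ)
    (hm : ptIdeal w ≤ I ⊔ Ideal.span (Set.range fun b => linf w (c b)) ⊔ ptIdeal w ^ 2) (j : ℕ)
    (y : MvPolynomial σ ℝ) (hy : y ∈ ptIdeal w ^ j) :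
    ∃ r ∈ h52_m0 q ^ j, y - aeval (fun b => linf w (c b)) r ∈ I ⊔ ptIdeal w ^ (j + 1) := by
  induction j generalizing y with
  | zero =>
    refine ⟨C (eval w y), by simp, ?_⟩
    rw [zero_add, pow_one, aeval_C]
    exact Ideal.mem_sup_right (h52_sub_eval w y)
  | succ j ih =>
    rw [pow_succ] at hy
    refine Submodule.mul_induction_on hy ?_ ?_
    · intro u hu g hg
      obtain ⟨r1, hr1, h1⟩ := ih u hu
      obtain ⟨r2, hr2, h2⟩ := h52_one w I c hm g hg
      refine ⟨r1 * r2, ?_, ?_⟩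
      · rw [pow_succ]
        exact Ideal.mul_mem_mul hr1 hr2
      · have e : u * g - aeval (fun b => linf w (c b)) (r1 * r2) =
            (u - aeval (fun b => linf w (c b)) r1) * g +
              aeval (fun b => linf w (c b)) r1 * (g - aeval (fun b => linf w (c b)) r2) := by
          rw [map_mul]
          ring
        rw [e]
        refine Ideal.add_mem _ ?_ ?_
        · have h3 := Ideal.mul_mem_mul h1 hg
          rw [Ideal.sup_mul, ← pow_succ] at h3
          have h4 : I * ptIdeal w ≤ I := Ideal.mul_le_left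
          exact Submodule.mem_sup.2 (by
            obtain ⟨u1, hu1, u2, hu2, e3⟩ := Submodule.mem_sup.1 h3
            exact ⟨u1, h4 hu1, u2, hu2, e3⟩)
        · have h3 := Ideal.mul_mem_mul (h52_map w c j r1 hr1) h2
          rw [Ideal.mul_sup, ← pow_add] at h3
          have h4 : ptIdeal w ^ j * I ≤ I := Ideal.mul_le_right
          exact Submodule.mem_sup.2 (by
            obtain ⟨u1, hu1, u2, hu2, e3⟩ := Submodule.mem_sup.1 h3
            exact ⟨u1, h4 hu1, u2, hu2, e3⟩)
    · rintro a b ⟨r1, hr1, h1⟩ ⟨r2, hr2, h2⟩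
      refine ⟨r1 + r2, Ideal.add_mem _ hr1 hr2, ?_⟩
      rw [map_add, add_sub_add_comm]
      exact Ideal.add_mem _ h1 h2

theorem reduce_free {σ : Type} [Fintype σ] {q : ℕ} (w : σ → ℝ) (I : Ideal (MvPolynomial σ ℝ)) (c : Fin q → σ → ℝ)
    (hm : ptIdeal w ≤ I ⊔ Ideal.span (Set.range fun b => linf w (c b)) ⊔ ptIdeal w ^ 2)
    (h : MvPolynomial σ ℝ) (j : ℕ) :
    ∃ r : MvPolynomial (Fin q) ℝ, h - aeval (fun b => linf w (c b)) r ∈ I ⊔ ptIdeal w ^ j := by
  induction j with
  | zero => exact ⟨0, by simp⟩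
  | succ j ih =>
    obtain ⟨r, hr⟩ := ih
    obtain ⟨i, hi, g, hg, e⟩ := Submodule.mem_sup.1 hr
    obtain ⟨r', -, h'⟩ := h52_pow w I c hm j g hg
    refine ⟨r + r', ?_⟩
    have e2 : h - aeval (fun b => linf w (c b)) (r + r') =
        i + (g - aeval (fun b => linf w (c b)) r') := by
      rw [map_add, ← sub_sub, ← e]
      ring
    rw [e2]
    exact Ideal.add_mem _ (Ideal.mem_sup_left hi) h'

end Pool.Agent.Helper1.BP
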