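import Pool.Agent.Helper1.BP.LocKrull
import Pool.Agent.Helper1.BP.LocRed
import Pool.Agent.Helper1.BP.LocBigO
import Pool.Agent.Helper1.BP.LocPar

/-!
PROJECT BP (MP_1cfd37_ag), block A, module BP-A1.06 (stub by helper1): the lemma for T4.

If `a_1, .., a_s` are real polynomials vanishing at `w` with linearly independent gradients and `h` vanishes on the real zero set of `a` near `w`, then `δ h ∈ (a)` for
some `δ` with `δ(w) <> 0`.

Proof. `I = (a)`, `m = ptIdeal w`. By `krull_loc` it is enough that `h ∈ I + m^j` for every `j` (then `1 - δ ∈ m` gives `eval w δ = 1`). Take `c` from `exists_coord`, `r` from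
`reduce_free` (with `max_le`): `h - aeval ell r ∈ I + m^j`. For small `z` take `x z` from `exists_par`: `eval (x z) (aeval ell r) = eval z r`, `eval (x z) h = 0` (`x z → w`, so `hU` applies),
elements of `I` vanish at `x z`, elements of `m^j` are `O(|x z - w|^j) = O(|z|^j)` (`pow_bound`, with `x z` in the neighbourhood because `‖x z - w‖ <= C ‖z‖`). So `|eval z r| <= C' |z|^j`, and
`coeff_zero_of_bigO`: all monomials of `r` have degree `>= j`, so `aeval ell r ∈ m^j` (each `ell_b ∈ m`). Hence `h ∈ I + m^j`.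
-/

set_option autoImplicit false

namespace Pool.Agent.Helper1.BP

open MvPolynomial

private theorem h52_lm_linf_mem {σ : Type} [Fintype σ] (w c : σ → ℝ) : linf w c ∈ ptIdeal w := by
  unfold linf ptIdeal
  exact Ideal.sum_mem _ fun x _ => Ideal.mul_mem_left _ _ (Ideal.subset_span ⟨x, rfl⟩)

private theorem h52_lm_eval {σ : Type} (w : σ → ℝ) (f : MvPolynomial σ ℝ) (hf : f ∈ ptIdeal w) : eval w f = 0 := by
  have h1 : ptIdeal w ≤ RingHom.ker (eval w) := by
    unfold ptIdeal
    rw [Ideal.span_le]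
    rintro _ ⟨x, rfl⟩
    simp
  exact h1 hf

private theorem h52_lm_comp {σ : Type} {q : ℕ} (f : Fin q → MvPolynomial σ ℝ) (y : σ → ℝ)
    (r : MvPolynomial (Fin q) ℝ) : eval y (aeval f r) = eval (fun b => eval y (f b)) r := by
  induction r using MvPolynomial.induction_on with
  | C a => simp
  | add p q hp hq => simp only [map_add, hp, hq]
  | mul_X p n hp => simp only [map_mul, hp, aeval_X, eval_X]

private theorem h52_lm_pow {σ : Type} [Fintype σ] {q : ℕ} (w : σ → ℝ) (c : Fin q → σ → ℝ) (j : ℕ)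
    (r : MvPolynomial (Fin q) ℝ) (hr : ∀ m : Fin q →₀ ℕ, m.degree < j → coeff m r = 0) :
    aeval (fun b => linf w (c b)) r ∈ ptIdeal w ^ j := by
  rw [MvPolynomial.as_sum r, map_sum]
  refine Ideal.sum_mem _ fun s hs => ?_
  rw [aeval_monomial]
  refine Ideal.mul_mem_left _ _ ?_
  have h1 : j ≤ s.degree := by
    by_contra h2
    exact (mem_support_iff.1 hs) (hr s (not_le.1 h2))
  have h2 : (s.prod fun i k => linf w (c i) ^ k) ∈ ptIdeal w ^ s.degree := by
    have h3 : (s.prod fun i k => linf w (c i) ^ k) ∈ ∏ i ∈ s.support, ptIdeal w ^ s i :=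
      Ideal.prod_mem_prod fun i _ => Ideal.pow_mem_pow (h52_lm_linf_mem w (c i)) _
    rw [Finset.prod_pow_eq_pow_sum] at h3
    exact h3
  exact Ideal.pow_le_pow_right h1 h2

private theorem h52_lm_van {σ α : Type} (a : α → MvPolynomial σ ℝ) (x : σ → ℝ) (hx : ∀ i, eval x (a i) = 0)
    (f : MvPolynomial σ ℝ) (hf : f ∈ Ideal.span (Set.range a)) : eval x f = 0 := by
  have h1 : Ideal.span (Set.range a) ≤ RingHom.ker (eval x) := by
    rw [Ideal.span_le]
    rintro _ ⟨i, rfl⟩
    exact hx i
  exact h1 hf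

theorem local_mem {σ α : Type} [Fintype σ] [DecidableEq σ] [Fintype α] (a : α → MvPolynomial σ ℝ) (w : σ → ℝ)
    (ha : ∀ i, eval w (a i) = 0)
    (hind : LinearIndependent ℝ (fun i : α => fun x : σ => eval w (pderiv x (a i))))
    (h : MvPolynomial σ ℝ) (hU : ∀ᶠ x : σ → ℝ in nhds w, (∀ i, eval x (a i) = 0) → eval x h = 0) :
    ∃ δ : MvPolynomial σ ℝ, eval w δ ≠ 0 ∧ δ * h ∈ Ideal.span (Set.range a) := by
  have key : ∀ j : ℕ, h ∈ Ideal.span (Set.range a) ⊔ ptIdeal w ^ j := by
    intro j
    obtain ⟨q, c, hli, hsp⟩ := exists_coord _ hind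
    have hm := max_le w a ha c hsp
    obtain ⟨r, hr⟩ := reduce_free w (Ideal.span (Set.range a)) c hm h j
    obtain ⟨i, hi, g, hg, e⟩ := Submodule.mem_sup.1 hr
    obtain ⟨x, Cst, hx⟩ := exists_par w a ha c hli hsp
    obtain ⟨Cg, hCg, hb⟩ := pow_bound w j g hg
    have htend : Filter.Tendsto x (nhds 0) (nhds w) := by
      rw [tendsto_iff_norm_sub_tendsto_zero]
      refine squeeze_zero' (Filter.Eventually.of_forall fun z => norm_nonneg _)
        (hx.mono fun z hz => hz.2.2) ?_
      have h1 : Filter.Tendsto (fun z : Fin q → ℝ => Cst * ‖z‖) (nhds 0) (nhds (Cst * ‖(0 : Fin q → ℝ)‖)) :=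
        (continuous_const.mul continuous_norm).tendsto 0
      simpa using h1
    have hbig : ∀ᶠ z : Fin q → ℝ in nhds 0, |eval z r| ≤ (Cg * Cst ^ j) * ‖z‖ ^ j := by
      filter_upwards [hx, htend.eventually hb, htend.eventually hU] with z hz1 hz2 hz3
      obtain ⟨hz4, hz5, hz6⟩ := hz1
      have e1 : eval z r = eval (x z) (aeval (fun b => linf w (c b)) r) := by
        rw [h52_lm_comp]
        congr 1
        exact congrArg eval (funext fun b => (hz5 b).symm)
      have e2 : aeval (fun b => linf w (c b)) r = h - i - g := by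
        rw [sub_sub, e]
        ring
      have e3 : eval z r = - eval (x z) g := by
        rw [e1, e2, map_sub, map_sub, hz3 hz4, h52_lm_van a (x z) hz4 i hi]
        ring
      rw [e3, abs_neg]
      refine hz2.trans ?_
      rw [mul_assoc, ← mul_pow]
      exact mul_le_mul_of_nonneg_left (pow_le_pow_left₀ (norm_nonneg _) hz6 j) hCg
    have h1 := h52_lm_pow w c j r fun m hm => coeff_zero_of_bigO r j _ hbig m hm
    have e4 : h = (h - aeval (fun b => linf w (c b)) r) + aeval (fun b => linf w (c b)) r := by ring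
    rw [e4]
    exact Ideal.add_mem _ hr (Ideal.mem_sup_right h1)
  obtain ⟨δ, h1, h2⟩ := krull_loc _ _ _ key
  refine ⟨δ, ?_, h2⟩
  have h3 := h52_lm_eval w _ h1
  rw [map_sub, map_one, sub_eq_zero] at h3
  rw [← h3]
  exact one_ne_zero

end Pool.Agent.Helper1.BP
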