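import Pool.Agent.Helper1.BP.HomGen

/-!
PROJECT BP (MP_1cfd37_ag), block A, module BP-A1.09 (stub by helper1): MINIMAL homogeneous generators (standard grading).

Proof. Among all `c` for which generators as in `homGen` exist take the smallest (`Nat.find`). Let `u` be homogeneous (`u_l` is `WH (fun _ => 1) (db l) d`), `Q u = 0`, and suppose `coeff 0 (u l0) <> 0`.
Then `WH` gives `db l0 = d`, and every monomial `m` of `u l0` has `weight m + d = d`, so `m = 0`: `u l0 = C k`, `k <> 0` (`Finsupp.weight (fun _ => 1) m = m.degree`, zero only for `m = 0`).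
So column `l0` of `Q` is `- C k⁻¹ * sum_(l <> l0) u_l Q_l`. Then `c = c' + 1` and deleting the column `l0` (`Fin.succAbove l0`) gives generators with `c'` columns
(same `WH`): contradiction to minimality. (`Fin.sum_univ_succAbove` splits the sum.)
-/

set_option autoImplicit false

namespace Pool.Agent.Helper1.BP

open MvPolynomial Pool.Agent.Helper21.BPA

private theorem mulVec_del {σ K : Type} [Field K] {b c : ℕ} (Q : Matrix (Fin b) (Fin (c + 1)) (MvPolynomial σ K))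
    (l0 : Fin (c + 1)) (w : Fin (c + 1) → MvPolynomial σ K) (hw : w l0 = 0) :
    (Q.submatrix id l0.succAbove).mulVec (fun l => w (l0.succAbove l)) = Q.mulVec w := by
  funext j
  show ∑ l, Q j (l0.succAbove l) * w (l0.succAbove l) = ∑ l, Q j l * w l
  rw [Fin.sum_univ_succAbove (fun l => Q j l * w l) l0, hw, mul_zero, zero_add]

private theorem del {σ K : Type} [Field K] {b c : ℕ} (e : Fin b → ℕ)
    (Z : Submodule (MvPolynomial σ K) (Fin b → MvPolynomial σ K)) (db : Fin (c + 1) → ℕ)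
    (Q : Matrix (Fin b) (Fin (c + 1)) (MvPolynomial σ K))
    (hQ : ∀ j l, WH (fun _ => 1) (e j) (db l) (Q j l))
    (hZQ : ∀ v, v ∈ Z ↔ ∃ u : Fin (c + 1) → MvPolynomial σ K, Q.mulVec u = v)
    (u : Fin (c + 1) → MvPolynomial σ K) (hu : Q.mulVec u = 0) (l0 : Fin (c + 1)) (k : K) (hk : k ≠ 0)
    (h : u l0 = C k) :
    ∃ (db' : Fin c → ℕ) (Q' : Matrix (Fin b) (Fin c) (MvPolynomial σ K)),
      (∀ j l, WH (fun _ => 1) (e j) (db' l) (Q' j l)) ∧
      ∀ v, v ∈ Z ↔ ∃ u : Fin c → MvPolynomial σ K, Q'.mulVec u = v := by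
  refine ⟨fun l => db (l0.succAbove l), Q.submatrix id l0.succAbove, fun j l => hQ j (l0.succAbove l), ?_⟩
  intro v
  rw [hZQ v]
  constructor
  · rintro ⟨w, rfl⟩
    have h0 : (w - (C k⁻¹ * w l0) • u) l0 = 0 := by
      rw [Pi.sub_apply, Pi.smul_apply, smul_eq_mul, h, mul_right_comm, ← C_mul, inv_mul_cancel₀ hk, C_1, one_mul,
        sub_self]
    refine ⟨fun l => (w - (C k⁻¹ * w l0) • u) (l0.succAbove l), ?_⟩
    rw [mulVec_del Q l0 _ h0, Matrix.mulVec_sub, Matrix.mulVec_smul, hu, smul_zero, sub_zero]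
  · rintro ⟨w, rfl⟩
    have h0 : (l0.insertNth (0 : MvPolynomial σ K) w : Fin (c + 1) → MvPolynomial σ K) l0 = 0 :=
      Fin.insertNth_apply_same (α := fun _ => MvPolynomial σ K) l0 0 w
    refine ⟨l0.insertNth (0 : MvPolynomial σ K) w, ?_⟩
    rw [← mulVec_del Q l0 _ h0]
    congr 1
    funext l
    exact Fin.insertNth_apply_succAbove (α := fun _ => MvPolynomial σ K) l0 0 w l

theorem minGen {σ K : Type} [Finite σ] [Field K] {b : ℕ} (e : Fin b → ℕ)
    (Z : Submodule (MvPolynomial σ K) (Fin b → MvPolynomial σ K))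
    (hZ : ∀ v ∈ Z, ∀ d, (fun j => cmp (fun _ => 1) (e j) d (v j)) ∈ Z) :
    ∃ (c : ℕ) (db : Fin c → ℕ) (Q : Matrix (Fin b) (Fin c) (MvPolynomial σ K)),
      (∀ j l, WH (fun _ => 1) (e j) (db l) (Q j l)) ∧
      (∀ v, v ∈ Z ↔ ∃ u : Fin c → MvPolynomial σ K, Q.mulVec u = v) ∧
      ∀ (u : Fin c → MvPolynomial σ K) (d : ℕ), (∀ l, WH (fun _ => 1) (db l) d (u l)) → Q.mulVec u = 0 →
        ∀ l, coeff 0 (u l) = 0 := by
  classical
  have hP : ∃ c : ℕ, ∃ (db : Fin c → ℕ) (Q : Matrix (Fin b) (Fin c) (MvPolynomial σ K)),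
      (∀ j l, WH (fun _ => 1) (e j) (db l) (Q j l)) ∧
      ∀ v, v ∈ Z ↔ ∃ u : Fin c → MvPolynomial σ K, Q.mulVec u = v := homGen (fun _ => 1) e Z hZ
  obtain ⟨c, hc, hmin⟩ : ∃ c : ℕ, (∃ (db : Fin c → ℕ) (Q : Matrix (Fin b) (Fin c) (MvPolynomial σ K)),
      (∀ j l, WH (fun _ => 1) (e j) (db l) (Q j l)) ∧
      ∀ v, v ∈ Z ↔ ∃ u : Fin c → MvPolynomial σ K, Q.mulVec u = v) ∧
      ∀ c' < c, ¬ ∃ (db : Fin c' → ℕ) (Q : Matrix (Fin b) (Fin c') (MvPolynomial σ K)),
      (∀ j l, WH (fun _ => 1) (e j) (db l) (Q j l)) ∧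
      ∀ v, v ∈ Z ↔ ∃ u : Fin c' → MvPolynomial σ K, Q.mulVec u = v :=
    ⟨Nat.find hP, Nat.find_spec hP, fun c' hc' => Nat.find_min hP hc'⟩
  obtain ⟨db, Q, hQ, hZQ⟩ := hc
  refine ⟨c, db, Q, hQ, hZQ, ?_⟩
  intro u d hu hQu l0
  by_contra hne
  have h0 := hu l0 0 hne
  rw [map_zero, zero_add] at h0
  have hC : u l0 = C (coeff 0 (u l0)) := by
    ext m
    rw [coeff_C]
    by_cases hm : 0 = m
    · rw [if_pos hm, hm]
    · rw [if_neg hm]
      by_contra hm2
      have h1 := hu l0 m hm2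
      have h2 : Finsupp.weight (fun _ => 1) m = 0 := by omega
      apply hm
      ext i
      have h3 : m i = 0 := by
        by_contra h4
        have h5 : Finsupp.weight (fun _ : σ => 1) m = m.degree := by
          rw [Finsupp.degree_eq_weight_one]
        rw [h5] at h2
        rw [Finsupp.degree_eq_zero_iff] at h2
        rw [h2] at h4
        exact h4 rfl
      rw [h3]
      rfl
  cases c with
  | zero => exact l0.elim0
  | succ c => exact hmin c (Nat.lt_succ_self c) (del e Z db Q hQ hZQ u hQu l0 _ hne hC)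

end Pool.Agent.Helper1.BP
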