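import Pool.Agent.Helper1.BP.RankPair
import Pool.Agent.Helper1.BP.ConstRank

/-!
PROJECT BP (MP_1cfd37_ag), block A, module BP-A1.18 (stub by helper1): exactness at all points `y <> 0` of the tail of the complex.

Proof. By `rank_const_of_pair` applied to `(D n', D n)`, `n = n' + 1`, the rank of `D n (y)` is constant for `y <> 0`. Induction on `i >= n`: if the rank `r_i` of `D i (y)` is constant for `y <> 0` then `ex2_of_rank` (with `Q = D (i+1)`,
`D i * D (i+1) = 0` from `he` (columns: `(D i).mulVec ((D (i+1)).mulVec u) = 0` for all `u`)) gives `Ex2` at the index `i`, and `rank_add` gives that the rank of `D (i+1) (y)` is `rk (i+1) - r_i`, constant.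
-/

set_option autoImplicit false

namespace Pool.Agent.Helper1.BP

open MvPolynomial Pool.Agent.Helper21.BPA

theorem tail_exact {ι : Type} [Fintype ι] [Nonempty ι] (rk : ℕ → ℕ)
    (D : (i : ℕ) → Matrix (Fin (rk i)) (Fin (rk (i + 1))) (MvPolynomial ι ℂ)) (n' : ℕ)
    (h0 : ∀ y : ι → ℂ, y ≠ 0 → Ex2 ((D n').map (eval y)) ((D (n' + 1)).map (eval y)))
    (he : ∀ i, n' + 1 ≤ i → ∀ v, (D i).mulVec v = 0 ↔ ∃ u, (D (i + 1)).mulVec u = v) :
    ∀ i, n' + 1 ≤ i → ∀ y : ι → ℂ, y ≠ 0 → Ex2 ((D i).map (eval y)) ((D (i + 1)).map (eval y)) := by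
  have hmul : ∀ i, n' + 1 ≤ i → D i * D (i + 1) = 0 := by
    intro i hi
    apply Matrix.ext_of_mulVec_single
    intro j
    rw [← Matrix.mulVec_mulVec, Matrix.zero_mulVec]
    exact (he i hi _).2 ⟨_, rfl⟩
  have hex : ∀ i, n' + 1 ≤ i → (∃ r, ∀ y : ι → ℂ, y ≠ 0 → ((D i).map (eval y)).rank = r) →
      ∀ y : ι → ℂ, y ≠ 0 → Ex2 ((D i).map (eval y)) ((D (i + 1)).map (eval y)) := by
    rintro i hi ⟨r, hr⟩
    exact ex2_of_rank (D i) (D (i + 1)) r hr (hmul i hi) fun v hv => (he i hi v).1 hv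
  have key : ∀ i, n' + 1 ≤ i → ∃ r, ∀ y : ι → ℂ, y ≠ 0 → ((D i).map (eval y)).rank = r := by
    intro i hi
    induction i, hi using Nat.le_induction with
    | base => exact rank_const_of_pair (D n') (D (n' + 1)) h0
    | succ i hi ih =>
      have h1 := hex i hi ih
      obtain ⟨r, hr⟩ := ih
      refine ⟨rk (i + 1) - r, fun y hy => ?_⟩
      have h2 := rank_add _ _ (h1 y hy)
      rw [hr y hy] at h2
      omega
  intro i hi
  exact hex i hi (key i hi)

end Pool.Agent.Helper1.BP
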