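import Pool.Agent.Helper1.BP.Seq
import Pool.Agent.Helper1.BP.Tail
import Pool.Agent.Helper1.BP.HilbVan
import Pool.Agent.Helper1.BP.Htpy
import Pool.Agent.Helper78.BPX.X2

/-!
PROJECT BP (MP_1cfd37_ag), block A, module BP-A1.23 (helper1): the first half of block A, assembled.
-/

set_option autoImplicit false

namespace Pool.Agent.Helper1.BP

open MvPolynomial Pool.Agent.Helper21.BPA Pool.Agent.Helper72.BP

private theorem col_mul {S : Type*} [CommRing S] {a b c : ℕ} (A : Matrix (Fin a) (Fin b) S)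
    (B : Matrix (Fin b) (Fin c) S) (i : Fin a) (j : Fin c) :
    A.mulVec (B.mulVec (Pi.single j 1)) i = (A * B) i j := by
  rw [Matrix.mulVec_mulVec]
  simp [Matrix.mulVec_single]

/-- First half of block A. -/
theorem pre_main {p : ℕ} {κ τ : Type} [Fintype κ] [Fintype τ]
    (F : MvPolynomial (Var (Ix p κ) τ) ℝ) (hF : IsWeightedHomogeneous (wt : Var (Ix p κ) τ → ℕ) F 4)
    (J : Ideal (MvPolynomial (Var (Ix p κ) τ) ℝ)) (hFJ : F ∈ J)
    (hJ : ∀ f ∈ J, ∀ d, weightedHomogeneousComponent (wt : Var (Ix p κ) τ → ℕ) d f ∈ J)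
    (σ : τ → MvPolynomial (Ix p κ) ℂ) (hσ : ∀ s, (σ s).IsHomogeneous 2)
    (hσF : aeval (Sum.elim X σ : Var (Ix p κ) τ → MvPolynomial (Ix p κ) ℂ) F = 0)
    (hσd : ∀ y : Ix p κ → ℂ, y ≠ 0 →
      ∃ s, aeval (Sum.elim y (fun s => eval y (σ s)) : Var (Ix p κ) τ → ℂ) (pderiv (Sum.inr s) F) ≠ 0) :
    Nonempty (Pre F J σ) := by
  classical
  obtain ⟨n', hn'⟩ : ∃ n', Fintype.card (Var (Ix p κ) τ) = n' + 1 := by
    have h : 0 < Fintype.card (Var (Ix p κ) τ) := Fintype.card_pos_iff.2 ⟨Sum.inl (Sum.inl 0)⟩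
    exact ⟨_, (Nat.succ_pred_eq_of_pos h).symm⟩
  obtain ⟨rk, deg, M, H, rk0, deg0, Mwh, Hwh, Heq, Mit, Hit, Hmin, MJ⟩ :=
    seq_exists F hF J hJ σ hσ (n' + 1)
  have Mcomp : ∀ i < n' + 1, ∀ a b, (M i * M (i + 1)) a b ∈ Ideal.span {F} := by
    intro i hi a b
    have h := ((Mit i hi) ((M (i + 1)).mulVec (Pi.single b 1))).2 ⟨_, rfl⟩ a
    rwa [col_mul] at h
  have Mex : ∀ i < n' + 1, ∀ v : Fin (rk (i + 1)) → MvPolynomial (Var (Ix p κ) τ) ℝ,
      (∀ a, (M i).mulVec v a ∈ Ideal.span {F}) →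
        ∃ u : Fin (rk (i + 1 + 1)) → MvPolynomial (Var (Ix p κ) τ) ℝ,
          ∀ b, v b - (M (i + 1)).mulVec u b ∈ Ideal.span {F} := by
    intro i hi v hv
    obtain ⟨u, hu⟩ := (Mit i hi v).1 hv
    exact ⟨u, fun b => by rw [hu, sub_self]; exact Ideal.zero_mem _⟩
  have Hmap : ∀ i ≤ n' + 1, H i =
      (M i).map (aeval (Sum.elim X σ : Var (Ix p κ) τ → MvPolynomial (Ix p κ) ℂ)) :=
    fun i hi => by ext1 a b; exact Heq i hi a b
  have Hcomp : ∀ i, H i * H (i + 1) = 0 := by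
    intro i
    by_cases hi : i < n' + 1
    · rw [Hmap i (by omega), Hmap (i + 1) (by omega), ← Matrix.map_mul]
      ext1 a b
      obtain ⟨g, hg⟩ := Ideal.mem_span_singleton'.1 (Mcomp i hi a b)
      rw [Matrix.map_apply, ← hg, map_mul, hσF, mul_zero, Matrix.zero_apply]
    · ext1 a b
      have h := (Hit i (by omega) ((H (i + 1)).mulVec (Pi.single b 1))).2 ⟨_, rfl⟩
      have h2 := congrFun h a
      rwa [col_mul] at h2
  have Hev : ∀ i ≤ n' + 1, ∀ y : Ix p κ → ℂ, (H i).map (eval y) =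
      evMat (Sum.elim y (fun s => eval y (σ s)) : Var (Ix p κ) τ → ℂ) (M i) := by
    intro i hi y
    rw [Hmap i hi]
    ext1 a b
    rw [Matrix.map_apply, Matrix.map_apply, evMat, Matrix.map_apply]
    exact eval_pull σ y (M i a b)
  have hX1 : ∀ w : Var (Ix p κ) τ → ℂ, aeval w F = 0 → (∃ x, aeval w (pderiv x F) ≠ 0) →
      ∀ i, i + 1 = n' + 1 → Ex2 (evMat w (M i)) (evMat w (M (i + 1))) :=
    fun w hw hd i hi => Pool.Agent.Helper78.BPX.x1c F (n' + 1) hn'.le rk M Mcomp Mex w hw hd i hi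
  have hX3 : ∀ i, n' + 1 ≤ i → ∀ y : Ix p κ → ℂ, y ≠ 0 →
      Ex2 ((H i).map (eval y)) ((H (i + 1)).map (eval y)) := by
    refine tail_exact rk H n' ?_ (fun i hi v => Hit i hi v)
    intro y hy
    rw [Hev n' (by omega) y, Hev (n' + 1) le_rfl y]
    obtain ⟨s, hs⟩ := hσd y hy
    refine hX1 _ ?_ ⟨Sum.inr s, hs⟩ n' rfl
    rw [← eval_pull σ y F, hσF, map_zero]
  have hrk : ∀ i, n' + 1 + Fintype.card (Ix p κ) + 2 ≤ i → rk (i + 1) = 0 :=
    hilb_vanish rk H (n' + 1) (fun i _ => Hcomp i) (fun i hi v hv => (Hit i hi v).1 hv)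
      (fun i hi a b => Hmin i hi a b)
  refine ⟨{
    n := n' + 1
    L := n' + 1 + Fintype.card (Ix p κ) + 3
    n_pos := by omega
    n_lt := by omega
    rk := rk
    deg := deg
    M := M
    H := H
    rk0 := rk0
    deg0 := deg0
    M_wh := Mwh
    H_wh := fun i _ => Hwh i
    H_eq := Heq
    M_comp := Mcomp
    H_comp := fun i _ => Hcomp i
    M_exact := Mex
    M_J := ?_
    M_htpy := ?_
    X1C := hX1
    X3 := fun y hy i hi _ => hX3 i hi y hy
    X3i := ?_ }⟩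
  · rw [Ideal.span_insert, ← MJ]
    exact (sup_eq_right.2 ((Ideal.span_singleton_le_iff_mem J).2 hFJ)).symm
  · intro f hf
    refine htpy (Ideal.span {F}) J rk rk0 M (n' + 1) ?_ Mcomp Mex f hf
    rw [← MJ]
    exact le_sup_right
  · intro y hy i hi u hu
    have h0 : rk (i + 1) = 0 := hrk i (by omega)
    have : IsEmpty (Fin (rk (i + 1))) := by rw [h0]; infer_instance
    exact Subsingleton.elim _ _

end Pool.Agent.Helper1.BP
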