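import Pool.Agent.Helper1.BP.Cmp

/-!
PROJECT BP (MP_1cfd37_ag), block A, module BP-A1.19 (stub by helper1): pull back by the section.

`wh_pull`: `f = sum_m coeff m f * prod X^m`; `aeval` of the monomial `m` (with `coeff m f <> 0`) is `C .. * (product of variables) * (product of powers of σ s)`, homogeneous of degree
`sum_(i) m_i + 2 sum_(s) m_s = weight wt m = d - e` (`IsHomogeneous.mul`, `.pow`, `.prod`; `IsHomogeneous.sum`); if `d < e` then `f = 0`. (If `f` is `WH wt e d` and `e <= d` then `f` is weighted homogeneous of degree `d - e`; `aeval` of a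
weighted homogeneous polynomial at homogeneous arguments: prove for monomials.)

`map_pull`: evaluation of the pull back at `y` is evaluation at the point `(y, σ(y))` (`aeval` compositions, `MvPolynomial.aeval_def`, `eval₂_comp`; check on `X` and `C` by `MvPolynomial.induction_on` or `algHom_ext`).

`wh_scale`, `wh_scaleC`: sign rule: for `WH w e d f`: `f(c^w x) * c^e = c^d * f(x)`: sum over monomials (`aeval_def`, `eval₂_eq'`, `Finset.sum_mul`): each monomial with nonzero coefficient gets the factor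
`c^(weight m)` and `c^(weight m) * c^e = c^d`.
-/

set_option autoImplicit false

namespace Pool.Agent.Helper1.BP

open MvPolynomial Pool.Agent.Helper21.BPA Pool.Agent.Helper72.BP

theorem wh_scale_gen {σ K A : Type} [CommRing K] [CommRing A] [Algebra K A] (w : σ → ℕ) (e d : ℕ)
    (f : MvPolynomial σ K) (hf : WH w e d f) (c : A) (x : σ → A) :
    aeval (fun i => c ^ w i * x i) f * c ^ e = c ^ d * aeval x f := by
  rw [aeval_def, aeval_def, eval₂_eq, eval₂_eq, Finset.sum_mul, Finset.mul_sum]
  apply Finset.sum_congr rfl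
  intro m hm
  have h1 : Finsupp.weight w m + e = d := hf m (mem_support_iff.1 hm)
  have h2 : ∏ i ∈ m.support, (c ^ w i * x i) ^ m i =
      c ^ Finsupp.weight w m * ∏ i ∈ m.support, x i ^ m i := by
    rw [Finsupp.weight_apply, Finsupp.sum, ← Finset.prod_pow_eq_pow_sum, ← Finset.prod_mul_distrib]
    apply Finset.prod_congr rfl
    intro i _
    rw [mul_pow, ← pow_mul, smul_eq_mul, mul_comm (m i)]
  rw [h2, ← h1, pow_add]
  ring

theorem wh_pull {ι τ : Type} (σ : τ → MvPolynomial ι ℂ) (hσ : ∀ s, (σ s).IsHomogeneous 2) (e d : ℕ)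
    (f : MvPolynomial (Var ι τ) ℝ) (hf : WH wt e d f) :
    WH (fun _ => 1) e d (aeval (Sum.elim X σ : Var ι τ → MvPolynomial ι ℂ) f) := by
  intro m hm
  rw [aeval_def, eval₂_eq, coeff_sum] at hm
  obtain ⟨m', hm', hne⟩ := Finset.exists_ne_zero_of_sum_ne_zero hm
  have h1 : Finsupp.weight wt m' + e = d := hf m' (mem_support_iff.1 hm')
  have h2 : (∏ i ∈ m'.support, (Sum.elim X σ : Var ι τ → MvPolynomial ι ℂ) i ^ m' i).IsHomogeneous
      (∑ i ∈ m'.support, (wt i : ℕ) * m' i) := by
    apply IsHomogeneous.prod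
    intro i _
    apply IsHomogeneous.pow
    cases i with
    | inl i => exact isHomogeneous_X ℂ i
    | inr s => exact hσ s
  have h3 : (algebraMap ℝ (MvPolynomial ι ℂ) (coeff m' f) *
      ∏ i ∈ m'.support, (Sum.elim X σ : Var ι τ → MvPolynomial ι ℂ) i ^ m' i).IsHomogeneous
      (0 + ∑ i ∈ m'.support, (wt i : ℕ) * m' i) := by
    apply IsHomogeneous.mul _ h2
    rw [MvPolynomial.algebraMap_apply]
    exact isHomogeneous_C _ _
  have h4 := h3 hne
  have h5 : Finsupp.weight wt m' = ∑ i ∈ m'.support, (wt i : ℕ) * m' i := by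
    rw [Finsupp.weight_apply, Finsupp.sum]
    apply Finset.sum_congr rfl
    intro i _
    rw [smul_eq_mul, mul_comm]
  have h6 : Finsupp.weight (fun _ : ι => 1) m = 0 + ∑ i ∈ m'.support, (wt i : ℕ) * m' i := h4
  rw [h6, zero_add, ← h5]
  exact h1

theorem eval_pull {ι τ : Type} (σ : τ → MvPolynomial ι ℂ) (y : ι → ℂ) (f : MvPolynomial (Var ι τ) ℝ) :
    eval y (aeval (Sum.elim X σ : Var ι τ → MvPolynomial ι ℂ) f) =
      aeval (Sum.elim y (fun s => eval y (σ s)) : Var ι τ → ℂ) f := by
  induction f using MvPolynomial.induction_on with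
  | C r =>
    rw [aeval_C, aeval_C, MvPolynomial.algebraMap_apply, eval_C]
  | add p q hp hq => rw [map_add, map_add, hp, hq, map_add]
  | mul_X p n hp =>
    rw [map_mul, map_mul, hp, map_mul, aeval_X, aeval_X]
    cases n with
    | inl i => rw [Sum.elim_inl, Sum.elim_inl, eval_X]
    | inr s => rw [Sum.elim_inr, Sum.elim_inr]

theorem wh_scale {ι τ : Type} (e d : ℕ) (f : MvPolynomial (Var ι τ) ℝ) (hf : WH wt e d f) (c : ℝ)
    (w : Var ι τ → ℝ) : aeval (fun x => c ^ wt x * w x) f * c ^ e = c ^ d * aeval w f := by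
  exact wh_scale_gen wt e d f hf c w

theorem wh_scaleC {ι : Type} (e d : ℕ) (f : MvPolynomial ι ℂ) (hf : WH (fun _ => 1) e d f) (c : ℂ)
    (y : ι → ℂ) : eval (c • y) f * c ^ e = c ^ d * eval y f := by
  have h := wh_scale_gen (fun _ => 1) e d f hf c y
  have h1 : (fun i => c ^ (fun _ : ι => 1) i * y i) = c • y := by
    funext i
    simp
  rw [h1] at h
  have h2 : ∀ z : ι → ℂ, aeval z f = eval z f := fun z => by
    rw [aeval_def, eval]
    rfl
  rw [h2, h2] at h
  exact h

end Pool.Agent.Helper1.BP
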