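import Pool.Agent.Helper21.BPA.Defs

/-!
PROJECT BP (MP_1cfd37_ag), block A, module BP-A1.16 (stub by helper1): constant rank.

`lowsc`: lower semicontinuity in algebraic form. If `P(y1)` has rank `r` there is a polynomial `Δ` with `Δ(y1) <> 0` and `rank P(y) >= r` wherever `Δ(y) <> 0`.
Proof: choose `V : Fin r → column combinations`, `U`: complex matrices `U` (`r x a`), `V` (`b x r`) with `U P(y1) V = 1` (rank factorisation: a basis of the range of `P(y1)` consists of images `P(y1) v_k`; `U` = left inverse: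
coordinates, extended by `LinearMap.exists_leftInverse_of_injective`). `Δ = det (U.map C * P * V.map C)`; if `Δ(y) <> 0` then `U P(y) V` is invertible, so `rank P(y) >= r`
(`Matrix.rank_mul_le_left/right`, `Matrix.rank_of_isUnit`).

`rank_const_of_pair`. From `Ex2`: rank `P(y)` + rank `Q(y)` = `b` for every `y <> 0` (`ker P(y) = im Q(y)` and rank-nullity). Let `r1` = maximum of rank `P(y)` over `y <> 0` (attained at `y1`), `r2` = maximum of rank `Q(y)`
(attained at `y2`). `Δ1 Δ2` (from `lowsc`) is a nonzero polynomial, also `Δ1 Δ2 X_k` (`k` any index) is nonzero, so there is `y3` where it does not vanish (`MvPolynomial.funext`, `ℂ` infinite); `y3 <> 0`.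
So `r1 + r2 <= b`. For every `y <> 0`: rank `Q(y)` = `b` - rank `P(y)` >= `b - r1 >= r2`, so it is `r2`. (`r := r2`.)
-/

set_option autoImplicit false

namespace Pool.Agent.Helper1.BP

open MvPolynomial Pool.Agent.Helper21.BPA

private theorem exists_UV {a b r : ℕ} (A : Matrix (Fin a) (Fin b) ℂ) (hr : A.rank = r) :
    ∃ (U : Matrix (Fin r) (Fin a) ℂ) (V : Matrix (Fin b) (Fin r) ℂ), U * A * V = 1 := by
  have hfr : Module.finrank ℂ (LinearMap.range A.mulVecLin) = r := hr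
  let B := Module.finBasisOfFinrankEq ℂ (LinearMap.range A.mulVecLin) hfr
  have hB : ∀ k, ∃ v : Fin b → ℂ, A.mulVecLin v = (B k : Fin a → ℂ) := fun k => (B k).2
  choose v hv using hB
  let V : Matrix (Fin b) (Fin r) ℂ := Matrix.of fun i k => v k i
  have hAV : ∀ x : Fin r → ℂ, (A * V).mulVecLin x = ((∑ k, x k • B k : LinearMap.range A.mulVecLin) : Fin a → ℂ) := by
    intro x
    have h1 : V.mulVec x = ∑ k, x k • v k := by
      funext i
      simp only [Matrix.mulVec, dotProduct, Finset.sum_apply, Pi.smul_apply, smul_eq_mul, V, Matrix.of_apply]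
      exact Finset.sum_congr rfl fun k _ => mul_comm _ _
    have h2 : (A * V).mulVecLin x = A.mulVecLin (V.mulVec x) := by
      simp [Matrix.mulVec_mulVec]
    rw [h2, h1, map_sum]
    simp only [map_smul, hv, Submodule.coe_sum, Submodule.coe_smul]
  have hinj : LinearMap.ker (A * V).mulVecLin = ⊥ := by
    rw [LinearMap.ker_eq_bot']
    intro x hx
    rw [hAV x] at hx
    have h0 : (∑ k, x k • B k : LinearMap.range A.mulVecLin) = 0 := Subtype.ext hx
    have := (Fintype.linearIndependent_iff.1 B.linearIndependent) x h0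
    exact funext this
  obtain ⟨g, hg⟩ := LinearMap.exists_leftInverse_of_injective _ hinj
  refine ⟨LinearMap.toMatrix' g, V, ?_⟩
  have h3 : LinearMap.toMatrix' (g ∘ₗ (A * V).mulVecLin) = 1 := by
    rw [hg]; exact LinearMap.toMatrix'_id
  rw [LinearMap.toMatrix'_comp] at h3
  have h4 : LinearMap.toMatrix' (A * V).mulVecLin = A * V := by
    rw [← Matrix.toLin'_apply', LinearMap.toMatrix'_toLin']
  rw [h4] at h3
  rw [Matrix.mul_assoc]
  exact h3

theorem lowsc {ι : Type} [Fintype ι] {a b : ℕ} (P : Matrix (Fin a) (Fin b) (MvPolynomial ι ℂ)) (y1 : ι → ℂ) :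
    ∃ Δ : MvPolynomial ι ℂ, eval y1 Δ ≠ 0 ∧
      ∀ y, eval y Δ ≠ 0 → (P.map (eval y1)).rank ≤ (P.map (eval y)).rank := by
  obtain ⟨U, V, hUV⟩ := exists_UV (P.map (eval y1)) rfl
  have key : ∀ y, eval y (U.map (C : ℂ → MvPolynomial ι ℂ) * P * V.map (C : ℂ → MvPolynomial ι ℂ)).det =
      (U * P.map (eval y) * V).det := by
    intro y
    rw [RingHom.map_det, RingHom.mapMatrix_apply, Matrix.map_mul, Matrix.map_mul, Matrix.map_map,
      Matrix.map_map]
    have hC : ∀ {m n : Type} (W : Matrix m n ℂ), W.map ((eval y : MvPolynomial ι ℂ → ℂ) ∘ (C : ℂ → MvPolynomial ι ℂ)) = W := by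
      intro m n W
      ext i j
      simp
    rw [hC, hC]
  refine ⟨(U.map (C : ℂ → MvPolynomial ι ℂ) * P * V.map (C : ℂ → MvPolynomial ι ℂ)).det, ?_, ?_⟩
  · rw [key, hUV]; simp
  · intro y hy
    rw [key] at hy
    have hu : IsUnit (U * P.map (eval y) * V) := by
      rw [Matrix.isUnit_iff_isUnit_det]
      exact isUnit_iff_ne_zero.2 hy
    have h1 := Matrix.rank_of_isUnit _ hu
    rw [Fintype.card_fin] at h1
    calc (P.map (eval y1)).rank = (U * P.map (eval y) * V).rank := h1.symm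
      _ ≤ (U * P.map (eval y)).rank := Matrix.rank_mul_le_left _ _
      _ ≤ (P.map (eval y)).rank := Matrix.rank_mul_le_right _ _

private theorem rank_add_of_ex2 {a b c : ℕ} (A : Matrix (Fin a) (Fin b) ℂ) (B : Matrix (Fin b) (Fin c) ℂ)
    (h : Ex2 A B) : A.rank + B.rank = b := by
  have hk : LinearMap.ker A.mulVecLin = LinearMap.range B.mulVecLin := by
    ext v
    rw [LinearMap.mem_ker, LinearMap.mem_range, Matrix.mulVecLin_apply, h v]
    rfl
  have h1 := LinearMap.finrank_range_add_finrank_ker A.mulVecLin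
  rw [hk] at h1
  have h2 : Module.finrank ℂ (Fin b → ℂ) = b := by simp
  rw [h2] at h1
  exact h1

theorem rank_const_of_pair {ι : Type} [Fintype ι] [Nonempty ι] {a b c : ℕ}
    (P : Matrix (Fin a) (Fin b) (MvPolynomial ι ℂ)) (Q : Matrix (Fin b) (Fin c) (MvPolynomial ι ℂ))
    (h : ∀ y : ι → ℂ, y ≠ 0 → Ex2 (P.map (eval y)) (Q.map (eval y))) :
    ∃ r, ∀ y : ι → ℂ, y ≠ 0 → (Q.map (eval y)).rank = r := by
  classical
  have hne : (fun _ => 1 : ι → ℂ) ≠ 0 := by
    intro h0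
    obtain ⟨k⟩ := ‹Nonempty ι›
    have := congrFun h0 k
    simp at this
  have : Nonempty {y : ι → ℂ // y ≠ 0} := ⟨⟨_, hne⟩⟩
  have hadd : ∀ y : ι → ℂ, y ≠ 0 → (P.map (eval y)).rank + (Q.map (eval y)).rank = b :=
    fun y hy => rank_add_of_ex2 _ _ (h y hy)
  obtain ⟨⟨y1, hy1⟩, m1⟩ : ∃ z : {y : ι → ℂ // y ≠ 0}, ∀ y : {y : ι → ℂ // y ≠ 0},
      (Q.map (eval z.1)).rank ≤ (Q.map (eval y.1)).rank :=
    ⟨Function.argmin (fun y : {y : ι → ℂ // y ≠ 0} => (Q.map (eval y.1)).rank),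
      fun y => Function.argmin_le (fun y : {y : ι → ℂ // y ≠ 0} => (Q.map (eval y.1)).rank) y⟩
  obtain ⟨⟨y2, hy2⟩, m2⟩ : ∃ z : {y : ι → ℂ // y ≠ 0}, ∀ y : {y : ι → ℂ // y ≠ 0},
      (P.map (eval z.1)).rank ≤ (P.map (eval y.1)).rank :=
    ⟨Function.argmin (fun y : {y : ι → ℂ // y ≠ 0} => (P.map (eval y.1)).rank),
      fun y => Function.argmin_le (fun y : {y : ι → ℂ // y ≠ 0} => (P.map (eval y.1)).rank) y⟩
  obtain ⟨Δ1, hΔ1, k1⟩ := lowsc P y1
  obtain ⟨Δ2, hΔ2, k2⟩ := lowsc Q y2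
  obtain ⟨k⟩ := ‹Nonempty ι›
  have hn1 : Δ1 ≠ 0 := by
    rintro rfl
    simp at hΔ1
  have hn2 : Δ2 ≠ 0 := by
    rintro rfl
    simp at hΔ2
  have hn : Δ1 * Δ2 * X k ≠ 0 := mul_ne_zero (mul_ne_zero hn1 hn2) (X_ne_zero k)
  obtain ⟨y3, hy3⟩ : ∃ y : ι → ℂ, eval y (Δ1 * Δ2 * X k) ≠ 0 := by
    by_contra hcon
    push Not at hcon
    apply hn
    apply MvPolynomial.funext
    intro y
    rw [hcon y, map_zero]
  rw [map_mul, map_mul, eval_X] at hy3
  have e1 : eval y3 Δ1 ≠ 0 := fun h0 => hy3 (by rw [h0]; ring)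
  have e2 : eval y3 Δ2 ≠ 0 := fun h0 => hy3 (by rw [h0]; ring)
  have e3 : y3 ≠ 0 := fun h0 => hy3 (by rw [h0]; simp)
  have a1 := hadd y1 hy1
  have a2 := hadd y2 hy2
  have a3 := hadd y3 e3
  have b1 := k1 y3 e1
  have b2 := k2 y3 e2
  refine ⟨(Q.map (eval y1)).rank, ?_⟩
  intro y hy
  have a4 := hadd y hy
  have c1 := m1 ⟨y, hy⟩
  have c2 := m2 ⟨y, hy⟩
  simp only at c1 c2
  omega

end Pool.Agent.Helper1.BP
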