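import Pool.Agent.Helper1.BP.Step
import Pool.Agent.Helper1.BP.Pull

/-!
PROJECT BP (MP_1cfd37_ag), block A, module BP-A1.21 (helper1): the sequence of matrices.

Proof. States `St` = `(a, b, da, db, M, H)`; `K 0` from `stepJ`; `K (i+1)` from `K i` with first index type `b`: if `i + 1 <= n` by `stepM` and `H` = pull back of `M`; otherwise by `stepH` and `M = 0`.
-/

set_option autoImplicit false

namespace Pool.Agent.Helper1.BP

open MvPolynomial Pool.Agent.Helper21.BPA Pool.Agent.Helper72.BP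

private theorem chain {A : Type} {B : A → A → Type} (P : ℕ → (x y : A) → B x y → Prop)
    (Q : ℕ → (x y z : A) → B x y → B y z → Prop) (h0 : ∃ (x y : A) (f : B x y), P 0 x y f)
    (hs : ∀ (i : ℕ) (x y : A) (f : B x y), P i x y f → ∃ (z : A) (g : B y z), Q i x y z f g ∧ P (i + 1) y z g) :
    ∃ (a : ℕ → A) (f : (i : ℕ) → B (a i) (a (i + 1))), (∀ i, P i (a i) (a (i + 1)) (f i)) ∧
      (∀ i, Q i (a i) (a (i + 1)) (a (i + 1 + 1)) (f i) (f (i + 1))) := by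
  classical
  choose z g hQ hP using hs
  obtain ⟨x0, y0, f0, h0⟩ := h0
  let K : (i : ℕ) → {s : (Σ (x : A) (y : A), B x y) // P i s.1 s.2.1 s.2.2} := fun i =>
    Nat.rec ⟨⟨x0, y0, f0⟩, h0⟩ (fun i s => ⟨⟨s.1.2.1, z i _ _ _ s.2, g i _ _ _ s.2⟩, hP i _ _ _ s.2⟩) i
  exact ⟨fun i => (K i).1.1, fun i => (K i).1.2.2, fun i => (K i).2, fun i => hQ i _ _ _ (K i).2⟩

theorem seq_exists {ι τ : Type} [Fintype ι] [Fintype τ] (F : MvPolynomial (Var ι τ) ℝ)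
    (hF : IsWeightedHomogeneous (wt : Var ι τ → ℕ) F 4) (J : Ideal (MvPolynomial (Var ι τ) ℝ))
    (hJ : ∀ f ∈ J, ∀ d, weightedHomogeneousComponent (wt : Var ι τ → ℕ) d f ∈ J)
    (σ : τ → MvPolynomial ι ℂ) (hσ : ∀ s, (σ s).IsHomogeneous 2) (n : ℕ) :
    ∃ (rk : ℕ → ℕ) (deg : (i : ℕ) → Fin (rk i) → ℕ)
      (M : (i : ℕ) → Matrix (Fin (rk i)) (Fin (rk (i + 1))) (MvPolynomial (Var ι τ) ℝ))
      (H : (i : ℕ) → Matrix (Fin (rk i)) (Fin (rk (i + 1))) (MvPolynomial ι ℂ)),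
      rk 0 = 1 ∧ (∀ j, deg 0 j = 0) ∧
      (∀ i ≤ n, ∀ a b, WH wt (deg i a) (deg (i + 1) b) (M i a b)) ∧
      (∀ i a b, WH (fun _ => 1) (deg i a) (deg (i + 1) b) (H i a b)) ∧
      (∀ i ≤ n, ∀ a b, H i a b = aeval (Sum.elim X σ : Var ι τ → MvPolynomial ι ℂ) (M i a b)) ∧
      (∀ i < n, ∀ v : Fin (rk (i + 1)) → MvPolynomial (Var ι τ) ℝ,
        (∀ a, (M i).mulVec v a ∈ Ideal.span {F}) ↔
          ∃ u : Fin (rk (i + 1 + 1)) → MvPolynomial (Var ι τ) ℝ, (M (i + 1)).mulVec u = v) ∧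
      (∀ i, n ≤ i → ∀ v : Fin (rk (i + 1)) → MvPolynomial ι ℂ, (H i).mulVec v = 0 ↔
          ∃ u : Fin (rk (i + 1 + 1)) → MvPolynomial ι ℂ, (H (i + 1)).mulVec u = v) ∧
      (∀ i, n + 2 ≤ i → ∀ a b, coeff 0 (H i a b) = 0) ∧
      J = Ideal.span {f | ∃ a b, f = M 0 a b} := by
  classical
  obtain ⟨a, f, hP, hQ⟩ := chain (A := Σ r : ℕ, (Fin r → ℕ))
    (B := fun x y => Matrix (Fin x.1) (Fin y.1) (MvPolynomial (Var ι τ) ℝ) × Matrix (Fin x.1) (Fin y.1) (MvPolynomial ι ℂ))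
    (fun i x y f =>
      (i ≤ n → ∀ a b, WH wt (x.2 a) (y.2 b) (f.1 a b)) ∧
      (∀ a b, WH (fun _ => 1) (x.2 a) (y.2 b) (f.2 a b)) ∧
      (i ≤ n → ∀ a b, f.2 a b = aeval (Sum.elim X σ : Var ι τ → MvPolynomial ι ℂ) (f.1 a b)) ∧
      (n + 1 ≤ i → ∀ (u : Fin y.1 → MvPolynomial ι ℂ) (d : ℕ), (∀ l, WH (fun _ => 1) (y.2 l) d (u l)) →
        f.2.mulVec u = 0 → ∀ l, coeff 0 (u l) = 0) ∧
      (i = 0 → x.1 = 1 ∧ (∀ j, x.2 j = 0) ∧ J = Ideal.span {g | ∃ a b, g = f.1 a b}))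
    (fun i x y z f g =>
      (i < n → ∀ v : Fin y.1 → MvPolynomial (Var ι τ) ℝ, (∀ a, f.1.mulVec v a ∈ Ideal.span {F}) ↔
        ∃ u : Fin z.1 → MvPolynomial (Var ι τ) ℝ, g.1.mulVec u = v) ∧
      (n ≤ i → ∀ v : Fin y.1 → MvPolynomial ι ℂ, f.2.mulVec v = 0 ↔
        ∃ u : Fin z.1 → MvPolynomial ι ℂ, g.2.mulVec u = v) ∧
      (n + 1 ≤ i → ∀ a b, coeff 0 (g.2 a b) = 0))
    (by
      obtain ⟨c, dc, M, hM, hJM⟩ := stepJ (wt : Var ι τ → ℕ) J hJ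
      refine ⟨⟨1, fun _ => 0⟩, ⟨c, dc⟩,
        (M, fun a b => aeval (Sum.elim X σ : Var ι τ → MvPolynomial ι ℂ) (M a b)), ?_, ?_, ?_, ?_, ?_⟩
      · intro _ a b
        exact hM a b
      · intro a b
        exact wh_pull σ hσ _ _ _ (hM a b)
      · intro _ a b
        rfl
      · intro h
        omega
      · intro _
        exact ⟨rfl, fun _ => rfl, hJM⟩)
    (by
      rintro i x y f ⟨h1, h2, h3, h4, _⟩
      by_cases hi : i + 1 ≤ n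
      · obtain ⟨c, dc, M', hM', hk⟩ := stepM (wt : Var ι τ → ℕ) F 4 hF x.2 y.2 f.1 (h1 (by omega))
        refine ⟨⟨c, dc⟩, (M', fun a b => aeval (Sum.elim X σ : Var ι τ → MvPolynomial ι ℂ) (M' a b)),
          ⟨fun _ => hk, fun h => by omega, fun h => by omega⟩, fun _ => hM', fun a b => wh_pull σ hσ _ _ _ (hM' a b),
          fun _ a b => rfl, fun h => by omega, fun h => by omega⟩
      · obtain ⟨c, dc, M', hM', hk, hmin⟩ := stepH x.2 y.2 f.2 h2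
        refine ⟨⟨c, dc⟩, (0, M'), ⟨fun h => by omega, fun _ => hk, fun h a b => ?_⟩, fun h => by omega, hM',
          fun h => by omega, fun _ => hmin, fun h => by omega⟩
        have hcol : f.2.mulVec (fun a' => M' a' b) = 0 := by
          rw [hk]
          refine ⟨Pi.single b 1, ?_⟩
          rw [Matrix.mulVec_single_one]
          rfl
        exact h4 h (fun a' => M' a' b) (dc b) (fun l => hM' l b) hcol a)
  refine ⟨fun i => (a i).1, fun i => (a i).2, fun i => (f i).1, fun i => (f i).2, ((hP 0).2.2.2.2 rfl).1,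
    ((hP 0).2.2.2.2 rfl).2.1, fun i hi => (hP i).1 hi, fun i => (hP i).2.1, fun i hi => (hP i).2.2.1 hi,
    fun i hi => (hQ i).1 hi, fun i hi => (hQ i).2.1 hi, ?_, ((hP 0).2.2.2.2 rfl).2.2⟩
  intro i hi
  obtain ⟨j, rfl⟩ : ∃ j, i = j + 1 := ⟨i - 1, by omega⟩
  exact (hQ j).2.2 (by omega)

end Pool.Agent.Helper1.BP
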