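import Pool.Agent.Helper1.BP.MinGen

/-!
PROJECT BP (MP_1cfd37_ag), block A, module BP-A1.20 (stub by helper1): one step of the resolution.

`stepM`: `Z = {v | M v ∈ (F) entrywise}` as a submodule of `Fin b → S` (`S = MvPolynomial σ K`); `hZ` of `homGen`: `cmp w (da i) d (M v i) = (M (cmp v)) i` (`cmp_mulVec`) and `cmp_mem_span`.
`stepH`: the same with `F = 0` (kernel of `M.mulVecLin`) and `minGen`.
`stepJ`: `homGen` for `b = 1`, `e = 0`, `Z = {v | v 0 ∈ J}`; `cmp w 0 d f = weightedHomogeneousComponent w d f`. `J` = span of the entries: `f ∈ J` iff `f = sum_l M 0 l * u l` (`Matrix.mulVec`, `Fin 1`).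
-/

set_option autoImplicit false

namespace Pool.Agent.Helper1.BP

open MvPolynomial Pool.Agent.Helper21.BPA

theorem stepM {σ K : Type} [Finite σ] [Field K] (w : σ → ℕ) (F : MvPolynomial σ K) (k : ℕ)
    (hF : IsWeightedHomogeneous w F k) {a b : ℕ} (da : Fin a → ℕ) (db : Fin b → ℕ)
    (M : Matrix (Fin a) (Fin b) (MvPolynomial σ K)) (hM : ∀ i j, WH w (da i) (db j) (M i j)) :
    ∃ (c : ℕ) (dc : Fin c → ℕ) (M' : Matrix (Fin b) (Fin c) (MvPolynomial σ K)),
      (∀ j l, WH w (db j) (dc l) (M' j l)) ∧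
      ∀ v : Fin b → MvPolynomial σ K, (∀ i, M.mulVec v i ∈ Ideal.span {F}) ↔ ∃ u, M'.mulVec u = v := by
  let Z : Submodule (MvPolynomial σ K) (Fin b → MvPolynomial σ K) :=
    { carrier := {v | ∀ i, M.mulVec v i ∈ Ideal.span {F}}
      add_mem' := fun {x y} hx hy i => by
        rw [Matrix.mulVec_add]
        exact Ideal.add_mem _ (hx i) (hy i)
      zero_mem' := fun i => by
        rw [Matrix.mulVec_zero]
        exact Ideal.zero_mem _
      smul_mem' := fun c x hx i => by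
        rw [Matrix.mulVec_smul]
        exact Ideal.mul_mem_left _ _ (hx i) }
  have hZ : ∀ v ∈ Z, ∀ d, (fun j => cmp w (db j) d (v j)) ∈ Z := by
    intro v hv d i
    rw [← cmp_mulVec w da db M hM v d i]
    exact cmp_mem_span w (da i) d k F hF _ (hv i)
  obtain ⟨c, dc, M', h1, h2⟩ := homGen w db Z hZ
  exact ⟨c, dc, M', h1, fun v => h2 v⟩

theorem stepH {σ K : Type} [Finite σ] [Field K] {a b : ℕ} (da : Fin a → ℕ) (db : Fin b → ℕ)
    (M : Matrix (Fin a) (Fin b) (MvPolynomial σ K)) (hM : ∀ i j, WH (fun _ => 1) (da i) (db j) (M i j)) :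
    ∃ (c : ℕ) (dc : Fin c → ℕ) (M' : Matrix (Fin b) (Fin c) (MvPolynomial σ K)),
      (∀ j l, WH (fun _ => 1) (db j) (dc l) (M' j l)) ∧
      (∀ v : Fin b → MvPolynomial σ K, M.mulVec v = 0 ↔ ∃ u, M'.mulVec u = v) ∧
      ∀ (u : Fin c → MvPolynomial σ K) (d : ℕ), (∀ l, WH (fun _ => 1) (dc l) d (u l)) → M'.mulVec u = 0 →
        ∀ l, coeff 0 (u l) = 0 := by
  let Z : Submodule (MvPolynomial σ K) (Fin b → MvPolynomial σ K) :=
    { carrier := {v | M.mulVec v = 0}
      add_mem' := fun {x y} hx hy => by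
        change M.mulVec (x + y) = 0
        rw [Matrix.mulVec_add, show M.mulVec x = 0 from hx, show M.mulVec y = 0 from hy, add_zero]
      zero_mem' := Matrix.mulVec_zero M
      smul_mem' := fun c x hx => by
        change M.mulVec (c • x) = 0
        rw [Matrix.mulVec_smul, show M.mulVec x = 0 from hx, smul_zero] }
  have hZ : ∀ v ∈ Z, ∀ d, (fun j => cmp (fun _ => 1) (db j) d (v j)) ∈ Z := by
    intro v hv d
    change M.mulVec _ = 0
    funext i
    rw [← cmp_mulVec (fun _ => 1) da db M hM v d i, show M.mulVec v = 0 from hv, Pi.zero_apply, cmp_zero]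
  obtain ⟨c, dc, M', h1, h2, h3⟩ := minGen db Z hZ
  exact ⟨c, dc, M', h1, fun v => h2 v, h3⟩

theorem stepJ {σ K : Type} [Finite σ] [Field K] (w : σ → ℕ) (J : Ideal (MvPolynomial σ K))
    (hJ : ∀ f ∈ J, ∀ d, weightedHomogeneousComponent w d f ∈ J) :
    ∃ (c : ℕ) (dc : Fin c → ℕ) (M : Matrix (Fin 1) (Fin c) (MvPolynomial σ K)),
      (∀ i l, WH w 0 (dc l) (M i l)) ∧ J = Ideal.span {f | ∃ i l, f = M i l} := by
  classical
  let Z : Submodule (MvPolynomial σ K) (Fin 1 → MvPolynomial σ K) :=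
    { carrier := {v | v 0 ∈ J}
      add_mem' := fun {x y} hx hy => Ideal.add_mem _ hx hy
      zero_mem' := Ideal.zero_mem _
      smul_mem' := fun c x hx => Ideal.mul_mem_left _ _ hx }
  have hZ : ∀ v ∈ Z, ∀ d, (fun j => cmp w ((fun _ : Fin 1 => 0) j) d (v j)) ∈ Z := by
    intro v hv d
    change cmp w 0 d (v 0) ∈ J
    unfold cmp
    rw [if_pos (Nat.zero_le d), Nat.sub_zero]
    exact hJ _ hv d
  obtain ⟨c, dc, M, h1, h2⟩ := homGen w (fun _ : Fin 1 => 0) Z hZ
  refine ⟨c, dc, M, h1, le_antisymm ?_ ?_⟩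
  · intro f hf
    obtain ⟨u, hu⟩ := (h2 (fun _ => f)).1 hf
    have h3 : f = ∑ l, M 0 l * u l := by
      have := congrFun hu 0
      simp only [Matrix.mulVec, dotProduct] at this
      exact this.symm
    rw [h3]
    exact Ideal.sum_mem _ fun l _ => Ideal.mul_mem_right _ _ (Ideal.subset_span ⟨0, l, rfl⟩)
  · rw [Ideal.span_le]
    rintro f ⟨i, l, rfl⟩
    have h4 := (h2 (M.mulVec (Pi.single l 1))).2 ⟨_, rfl⟩
    have h5 : M.mulVec (Pi.single l 1) 0 ∈ J := h4
    rw [Matrix.mulVec_single_one] at h5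
    rw [Subsingleton.elim i 0]
    exact h5

end Pool.Agent.Helper1.BP
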